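import Mathlib

-- part Pool.Agent.P.MP_0c777d_lc.Cof
section

set_option autoImplicit false

open Cardinal

namespace Pool.Agent.P.MP_0c777d_lc

/-- the first `n` values of a sequence -/
def pre {X : Type} (z : ℕ → X) (n : ℕ) : List X := List.ofFn (fun i : Fin n => z i.val)

theorem pre_congr {X : Type} {z z' : ℕ → X} {n : ℕ} (h : ∀ i < n, z i = z' i) :
    pre z n = pre z' n := by
  unfold pre
  congr 1
  ext i
  exact h i i.2

/-- a set that no single-board strategy of TWO avoids, but such that any small family of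
single-board strategies of ONE is beaten by one sequence of moves of TWO -/
theorem exists_A0 (X : Type) [Nontrivial X] (hX : #(List X → X) ≤ #(ℕ → X)) :
    ∃ A0 : Set ((ℕ → X) × (ℕ → X)),
      (∀ t : List X → X, ∃ y, (y, fun n => t (pre y (n + 1))) ∈ A0) ∧
      (∀ (K : Type) (s : K → List X → X), #K < (#(ℕ → X)).ord.cof →
        ∃ z : ℕ → X, ∀ α, ((fun n => s α (pre z n)), z) ∉ A0) := by
  classical
  have hinf : ℵ₀ ≤ #(ℕ → X) := by
    have : Infinite (ℕ → X) := Pi.infinite_of_left
    exact aleph0_le_mk _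
  obtain ⟨e⟩ : Nonempty ((List X → X) ↪ (#(ℕ → X)).ord.ToType) := by
    rw [← Cardinal.le_def]
    simpa using hX
  have hseg : ∀ a : (#(ℕ → X)).ord.ToType, #{t : List X → X | e t ≤ a} < #(ℕ → X) := by
    intro a
    have h1 : #{t : List X → X | e t ≤ a} ≤ #(Set.Iic a) :=
      mk_le_of_injective (f := fun t => ⟨e t.1, t.2⟩)
        (fun x y h => Subtype.ext (e.injective (congrArg Subtype.val h)))
    refine h1.trans_lt ?_
    rw [← Set.Iio_insert]
    exact mk_insert_le.trans_lt (add_lt_of_lt hinf (mk_Iio_toType_ord_lt a)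
      (one_lt_aleph0.trans_le hinf))
  have huniq : ∀ (s t : List X → X) (y y' : ℕ → X),
      (y = fun n => s (pre (fun m => t (pre y (m + 1))) n)) →
      (y' = fun n => s (pre (fun m => t (pre y' (m + 1))) n)) → y = y' := by
    intro s t y y' h h'
    have key : ∀ n, y n = y' n := by
      intro n
      induction n using Nat.strong_induction_on with
      | _ n ih =>
        rw [congrFun h n, congrFun h' n]
        congr 1
        apply pre_congr
        intro i hi
        congr 1
        apply pre_congr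
        intro j hj
        exact ih j (by omega)
    exact funext key
  have hy : ∀ t : List X → X, ∃ y : ℕ → X, ∀ s, e s ≤ e t →
      y ≠ fun n => s (pre (fun m => t (pre y (m + 1))) n) := by
    intro t
    by_contra hcon
    push Not at hcon
    choose s hs hs' using hcon
    have hinj : Function.Injective
        (fun y => (⟨s y, hs y⟩ : {s : List X → X | e s ≤ e t})) := by
      intro y y' h
      have h1 : s y = s y' := congrArg Subtype.val h
      exact huniq (s y) t y y' (hs' y) (h1 ▸ hs' y')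
    exact absurd (mk_le_of_injective hinj) (not_le.2 (hseg (e t)))
  choose y hy using hy
  refine ⟨{p | ∃ t, p = (y t, fun n => t (pre (y t) (n + 1)))}, fun t => ⟨y t, t, rfl⟩, ?_⟩
  intro K s hK
  obtain ⟨a, ha⟩ : ∃ a : (#(ℕ → X)).ord.ToType, ∀ α, e (s α) ≤ a := by
    by_contra hcon
    push Not at hcon
    have hcof : IsCofinal (Set.range fun α => e (s α)) := by
      intro a
      obtain ⟨α, hα⟩ := hcon a
      exact ⟨_, ⟨α, rfl⟩, hα.le⟩
    have h1 := Order.cof_le hcof
    rw [Ordinal.cof_toType] at h1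
    exact absurd (h1.trans mk_range_le) (not_le.2 hK)
  by_contra hcon
  push Not at hcon
  have h2 : ∀ z : ℕ → X, ∃ t, e t ≤ a ∧ z = fun n => t (pre (y t) (n + 1)) := by
    intro z
    obtain ⟨α, t, ht⟩ := hcon z
    have h3 : (fun n => s α (pre z n)) = y t := congrArg Prod.fst ht
    have h4 : z = fun n => t (pre (y t) (n + 1)) := congrArg Prod.snd ht
    refine ⟨t, ?_, h4⟩
    by_contra hlt
    push Not at hlt
    apply hy t (s α) ((ha α).trans hlt.le)
    rw [← h4]
    exact h3.symm
  choose t ht ht' using h2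
  have hinj : Function.Injective (fun z => (⟨t z, ht z⟩ : {s : List X → X | e s ≤ a})) := by
    intro z z' h
    have h1 : t z = t z' := congrArg Subtype.val h
    rw [ht' z, ht' z', h1]
  exact absurd (mk_le_of_injective hinj) (not_le.2 (hseg a))

end Pool.Agent.P.MP_0c777d_lc
end

-- part Pool.Agent.P.MP_0c777d_lc.Club
section

set_option autoImplicit false

open Cardinal

namespace Pool.Agent.P.MP_0c777d_lc

/-- points of countable cofinality closed under `g` -/
def Cl {W : Type} [LinearOrder W] (g : W → W) : Set W :=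
  {d | (∃ z : ℕ → W, (∀ n, z n < d) ∧ IsLUB (Set.range z) d) ∧ ∀ a < d, g a < d}

section
variable {W : Type} [LinearOrder W] [WellFoundedLT W] {k : Cardinal.{0}}

theorem cl_nonempty (hk : ℵ₀ ≤ k) [Nonempty W]
    (hb : ∀ S : Set W, #S ≤ k → ∃ b, ∀ a ∈ S, a < b) (hs : ∀ a : W, #(Set.Iic a) ≤ k)
    (g : W → W) : (Cl g).Nonempty := by
  classical
  have h1 : ∀ a : W, ∃ b, a < b ∧ ∀ c ≤ a, g c < b := by
    intro a
    obtain ⟨b, hb'⟩ := hb (insert a (g '' Set.Iic a)) (mk_insert_le.trans
      (add_le_of_le hk (mk_image_le.trans (hs a)) (one_le_aleph0.trans hk)))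
    exact ⟨b, hb' a (Set.mem_insert _ _), fun c hc => hb' _ (Set.mem_insert_of_mem _ ⟨c, hc, rfl⟩)⟩
  choose nx hnx hnx' using h1
  let z : ℕ → W := fun n => nx^[n] (Classical.arbitrary W)
  have hz : ∀ n, z (n + 1) = nx (z n) := fun n => Function.iterate_succ_apply' nx n _
  obtain ⟨b, hb'⟩ := hb (Set.range z) (mk_range_le.trans (by simpa using hk))
  have hne : (upperBounds (Set.range z)).Nonempty := ⟨b, fun a ha => (hb' a ha).le⟩
  let d := wellFounded_lt.min _ hne
  have hd : IsLUB (Set.range z) d :=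
    ⟨wellFounded_lt.min_mem _ hne, fun c hc => not_lt.1 (wellFounded_lt.not_lt_min _ hc)⟩
  have hzd : ∀ n, z n < d := fun n =>
    (hnx (z n)).trans_le (hz n ▸ hd.1 ⟨n + 1, rfl⟩)
  refine ⟨d, ⟨z, hzd, hd⟩, fun a ha => ?_⟩
  obtain ⟨c, ⟨n, rfl⟩, hc⟩ := (lt_isLUB_iff hd).1 ha
  exact (hnx' (z n) a hc.le).trans (hz n ▸ hzd (n + 1))

/-- Ulam matrix argument: a set meeting every `Cl g` whose complement also does -/
theorem exists_bistat (hk : ℵ₀ ≤ k) (hW : k < #W)
    (hb : ∀ S : Set W, #S ≤ k → ∃ b, ∀ a ∈ S, a < b) (hs : ∀ a : W, #(Set.Iic a) ≤ k) :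
    ∃ S : Set W, (∀ g, ∃ d ∈ Cl g, d ∈ S) ∧ (∀ g, ∃ d ∈ Cl g, d ∉ S) := by
  classical
  have : Nonempty W := mk_ne_zero_iff.1 (lt_of_le_of_lt zero_le hW).ne'
  have hh : ∀ d : W, Nonempty (Set.Iic d ↪ k.out) := fun d => by
    rw [← Cardinal.le_def, mk_out]; exact hs d
  let h := fun d => (hh d).some
  have h1 : ∀ a : W, ∃ i : k.out, ∀ g, ∃ d ∈ Cl g, ∃ had : a ≤ d, h d ⟨a, had⟩ = i := by
    intro a
    by_contra hcon
    push Not at hcon
    choose G hG using hcon
    have h2 : ∀ c : W, ∃ b, a < b ∧ ∀ i, G i c < b := by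
      intro c
      obtain ⟨b, hb'⟩ := hb (insert a (Set.range fun i => G i c)) (mk_insert_le.trans
        (add_le_of_le hk (mk_range_le.trans (mk_out k).le) (one_le_aleph0.trans hk)))
      exact ⟨b, hb' a (Set.mem_insert _ _), fun i => hb' _ (Set.mem_insert_of_mem _ ⟨i, rfl⟩)⟩
    choose g hg hg' using h2
    obtain ⟨d, ⟨z, hz, hz'⟩, hd⟩ := cl_nonempty hk hb hs g
    have had : a ≤ d := ((hg (z 0)).trans (hd _ (hz 0))).le
    exact hG (h d ⟨a, had⟩) d ⟨⟨z, hz, hz'⟩, fun c hc => (hg' c _).trans (hd c hc)⟩ had rfl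
  choose i hi using h1
  obtain ⟨a, a', haa, hne⟩ : ∃ a a', i a = i a' ∧ a ≠ a' := by
    by_contra hcon
    push Not at hcon
    have := mk_le_of_injective (f := i) (fun a a' h => hcon a a' h)
    rw [mk_out] at this
    exact absurd this (not_le.2 hW)
  refine ⟨{d | ∃ had : a ≤ d, h d ⟨a, had⟩ = i a}, fun g => hi a g, fun g => ?_⟩
  obtain ⟨d, hd, had, hd'⟩ := hi a' g
  refine ⟨d, hd, ?_⟩
  rintro ⟨had', h3⟩
  have := (h d).injective (h3.trans (haa.trans hd'.symm))
  exact hne (congrArg Subtype.val this)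

omit [WellFoundedLT W] in
theorem bound_strat (hk : ℵ₀ ≤ k)
    (hb : ∀ S : Set W, #S ≤ k → ∃ b, ∀ a ∈ S, a < b) (hs : ∀ a : W, #(Set.Iic a) ≤ k)
    (K : Type) (hK : #K ≤ k) (s : K → List W → W) :
    ∃ g : W → W, ∀ d ∈ Cl g, ∀ z : ℕ → W, (∀ n, z n < d) → ∀ α n, s α (pre z n) < d := by
  classical
  have h1 : ∀ a : W, ∃ b, ∀ (α : K) (l : List (Set.Iic a)), s α (l.map Subtype.val) < b := by
    intro a
    obtain ⟨b, hb'⟩ := hb (Set.range fun p : K × List (Set.Iic a) => s p.1 (p.2.map Subtype.val))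
      (mk_range_le.trans (by
        rw [mk_prod, lift_id, lift_id]
        exact mul_le_of_le hk hK ((mk_list_le_max _).trans (max_le hk (hs a)))))
    exact ⟨b, fun α l => hb' _ ⟨(α, l), rfl⟩⟩
  choose g hg using h1
  refine ⟨g, fun d hd z hz α n => ?_⟩
  obtain ⟨m, hm⟩ : ∃ m, ∀ i ≤ n, z i ≤ z m := by
    obtain ⟨m, -, hm⟩ := Finset.exists_max_image (Finset.range (n + 1)) z ⟨0, by simp⟩
    exact ⟨m, fun i hi => hm i (by simp; omega)⟩
  have h2 : pre z n = (List.ofFn fun i : Fin n =>
      (⟨z i.val, hm i.val i.2.le⟩ : Set.Iic (z m))).map Subtype.val := by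
    simp [pre, List.map_ofFn, Function.comp_def]
  rw [h2]
  exact (hg _ α _).trans (hd.2 _ (hz m))

theorem exists_A1 (hk : ℵ₀ ≤ k) (hW : k < #W)
    (hb : ∀ S : Set W, #S ≤ k → ∃ b, ∀ a ∈ S, a < b) (hs : ∀ a : W, #(Set.Iic a) ≤ k) :
    ∃ A0 : Set ((ℕ → W) × (ℕ → W)),
      (∀ t : List W → W, ∃ y, (y, fun n => t (pre y (n + 1))) ∈ A0) ∧
      (∀ (K : Type) (s : K → List W → W), #K ≤ k →
        ∃ z : ℕ → W, ∀ α, ((fun n => s α (pre z n)), z) ∉ A0) := by
  obtain ⟨S, hS, hS'⟩ := exists_bistat hk hW hb hs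
  refine ⟨{p | ∃ d ∈ S, IsLUB (Set.range p.1 ∪ Set.range p.2) d}, fun t => ?_, fun K s hK => ?_⟩
  · obtain ⟨g, hg⟩ := bound_strat hk hb hs Unit (by simpa using one_le_aleph0.trans hk)
      (fun _ => t)
    obtain ⟨d, hd, hdS⟩ := hS g
    obtain ⟨z, hz, hz'⟩ := hd.1
    refine ⟨z, d, hdS, ?_, fun c hc => hz'.2 fun a ha => hc (Or.inl ha)⟩
    rintro a (ha | ⟨n, rfl⟩)
    · exact hz'.1 ha
    · exact (hg d hd z hz () (n + 1)).le
  · obtain ⟨g, hg⟩ := bound_strat hk hb hs K hK s
    obtain ⟨d, hd, hdS⟩ := hS' g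
    obtain ⟨z, hz, hz'⟩ := hd.1
    refine ⟨z, fun α ⟨d', hd', h⟩ => hdS ?_⟩
    have : IsLUB (Set.range (fun n => s α (pre z n)) ∪ Set.range z) d := by
      refine ⟨?_, fun c hc => hz'.2 fun a ha => hc (Or.inr ha)⟩
      rintro a (⟨n, rfl⟩ | ha)
      · exact (hg d hd z hz α n).le
      · exact hz'.1 ha
    exact this.unique h ▸ hd'

end

/-- the play in which every move is produced by `st` from the earlier moves -/
noncomputable def play {M : Type} (st : List M → M) (n : ℕ) : M :=
  st (List.ofFn fun i : Fin n => play st i.val)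
termination_by n
decreasing_by exact i.2

theorem play_congr {M : Type} {st st' : List M → M} (n : ℕ)
    (h : ∀ l : List M, l.length ≤ n → st l = st' l) : play st n = play st' n := by
  induction n using Nat.strong_induction_on with
  | _ n ih =>
    rw [play, play, h _ (by simp)]
    congr 2
    funext i
    exact ih i i.2 fun l hl => h l (by omega)

theorem pre_getD {X : Type} (z : ℕ → X) (x : X) {n i : ℕ} (h : i < n) :
    (pre z n).getD i x = z i := by
  simp [pre, List.getD_eq_getElem?_getD, h]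

theorem not_det {L K X : Type} [Nonempty K] [Nonempty X] (p : L → X) (j : X → L)
    (hpj : ∀ x, p (j x) = x) (A0 : Set ((ℕ → X) × (ℕ → X)))
    (h1 : ∀ t : List X → X, ∃ y, (y, fun n => t (pre y (n + 1))) ∈ A0)
    (h2 : ∀ s : K → List X → X, ∃ z : ℕ → X, ∀ α, ((fun n => s α (pre z n)), z) ∉ A0) :
    ∃ A : Set (ℕ → L),
      ¬ ((∃ σ : List (K → L) → (K → L), ∀ f : ℕ → K → L,
            (∀ n : ℕ, f (2 * n) = σ (List.ofFn (fun i : Fin (2 * n) => f i.val))) →
            ∃ α : K, (fun n => f n α) ∈ A) ∨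
        (∃ τ : List (K → L) → (K → L), ∀ f : ℕ → K → L,
            (∀ n : ℕ, f (2 * n + 1) = τ (List.ofFn (fun i : Fin (2 * n + 1) => f i.val))) →
            ∀ α : K, (fun n => f n α) ∉ A)) := by
  classical
  let x0 : X := Classical.arbitrary X
  refine ⟨{a | ((fun n => p (a (2 * n))), (fun n => p (a (2 * n + 1)))) ∈ A0}, ?_⟩
  rintro (⟨σ, hσ⟩ | ⟨τ, hτ⟩)
  · let st : (ℕ → X) → List (K → L) → (K → L) := fun z l =>
      if l.length % 2 = 0 then σ l else fun _ => j (z (l.length / 2))
    obtain ⟨z, hz⟩ := h2 fun α l => p (play (st fun i => l.getD i x0) (2 * l.length) α)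
    obtain ⟨α, hα⟩ := hσ (play (st z)) (fun n => by rw [play]; simp [st])
    apply hz α
    have e1 : (fun n => p (play (st fun i => (pre z n).getD i x0) (2 * (pre z n).length) α)) =
        fun n => p (play (st z) (2 * n) α) := by
      funext n
      have : (pre z n).length = n := by simp [pre]
      rw [this, play_congr (st' := st z)]
      intro l hl
      simp only [st]
      split_ifs with h
      · rfl
      · rw [pre_getD z x0 (by omega)]
    have e2 : z = fun n => p (play (st z) (2 * n + 1) α) := by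
      funext n
      rw [play]
      have : (2 * n + 1) / 2 = n := by omega
      simp [st, this, hpj]
    rw [e1]
    have hα' : ((fun n => p (play (st z) (2 * n) α)),
      (fun n => p (play (st z) (2 * n + 1) α))) ∈ A0 := hα
    rwa [← e2] at hα'
  · let α : K := Classical.arbitrary K
    let st : (ℕ → X) → List (K → L) → (K → L) := fun y l =>
      if l.length % 2 = 1 then τ l else fun _ => j (y (l.length / 2))
    obtain ⟨y, hy⟩ := h1 fun l => p (play (st fun i => l.getD i x0) (2 * (l.length - 1) + 1) α)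
    apply hτ (play (st y)) (fun n => by rw [play]; simp [st]) α
    have e1 : (fun n => p (play (st fun i => (pre y (n + 1)).getD i x0)
        (2 * ((pre y (n + 1)).length - 1) + 1) α)) =
        fun n => p (play (st y) (2 * n + 1) α) := by
      funext n
      have : (pre y (n + 1)).length - 1 = n := by simp [pre]
      rw [this, play_congr (st' := st y)]
      intro l hl
      simp only [st]
      split_ifs with h
      · rfl
      · rw [pre_getD y x0 (by omega)]
    have e2 : (fun n => p (play (st y) (2 * n) α)) = y := by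
      funext n
      rw [play]
      simp [st, hpj]
    rw [e1] at hy
    show ((fun n => p (play (st y) (2 * n) α)), (fun n => p (play (st y) (2 * n + 1) α))) ∈ A0
    rwa [e2]

theorem exists_retr {L X : Type} [Nonempty X] (h : #X ≤ #L) :
    ∃ (p : L → X) (j : X → L), ∀ x, p (j x) = x := by
  obtain ⟨j⟩ := (Cardinal.le_def _ _).1 h
  exact ⟨Function.invFun j, j, Function.leftInverse_invFun j.injective⟩

end Pool.Agent.P.MP_0c777d_lc
end

-- part Pool.Agent.P.MP_0c777d_lc.Bounds
section

set_option autoImplicit false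

open Cardinal

namespace Pool.Agent.P.MP_0c777d_lc

theorem lower_bounds (L K : Type) (hL : (2 : Cardinal) ≤ Cardinal.mk L)
    (hK : (1 : Cardinal) ≤ Cardinal.mk K)
    (hD : ∀ A : Set (ℕ → L),
        (∃ σ : List (K → L) → (K → L), ∀ f : ℕ → K → L,
            (∀ n : ℕ, f (2 * n) = σ (List.ofFn (fun i : Fin (2 * n) => f i.val))) →
            ∃ α : K, (fun n => f n α) ∈ A) ∨
        (∃ τ : List (K → L) → (K → L), ∀ f : ℕ → K → L,
            (∀ n : ℕ, f (2 * n + 1) = τ (List.ofFn (fun i : Fin (2 * n + 1) => f i.val))) →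
            ∀ α : K, (fun n => f n α) ∉ A)) :
    Cardinal.mk L ≤ Cardinal.mk K ∧
    Cardinal.aleph0 < Cardinal.mk K ∧
    (Cardinal.continuum.ord.cof ≤ Cardinal.mk K) ∧
    (∀ μ : Cardinal, Cardinal.aleph0 ≤ μ → μ ≤ Cardinal.mk L →
      μ ^ Cardinal.aleph0.{0} = 2 ^ μ → ((2 : Cardinal) ^ μ).ord.cof ≤ Cardinal.mk K) := by
  have : Nonempty K := mk_ne_zero_iff.1 (by intro h; rw [h] at hK; simp at hK)
  have key : ∀ (X : Type) [Nontrivial X], #X ≤ #L → #(List X → X) ≤ #(ℕ → X) →
      (#(ℕ → X)).ord.cof ≤ #K := by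
    intro X _ hXL hX
    by_contra hcon
    obtain ⟨A0, h1, h2⟩ := exists_A0 X hX
    obtain ⟨p, j, hpj⟩ := exists_retr hXL
    obtain ⟨A, hA⟩ := not_det p j hpj A0 h1 fun s => h2 K s (not_le.1 hcon)
    exact hA (hD A)
  have h3 : Cardinal.continuum.ord.cof ≤ #K := by
    have := key Bool (by simpa using hL) (by simp)
    simpa using this
  have h2 : ℵ₀ < #K := by
    refine lt_of_lt_of_le ?_ h3
    rw [← two_power_aleph0]
    exact lt_cof_ord_power le_rfl one_lt_two
  refine ⟨?_, h2, h3, fun μ hμ hμL hμ' => ?_⟩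
  · by_contra hcon
    have hs : Order.succ #K ≤ #L := Order.succ_le_of_lt (not_le.1 hcon)
    have hreg := isRegular_succ h2.le
    have hW : #(Order.succ #K).ord.ToType = Order.succ #K := by simp
    have hseg : ∀ a : (Order.succ #K).ord.ToType, #(Set.Iic a) ≤ #K := by
      intro a
      rw [← Set.Iio_insert]
      exact mk_insert_le.trans (add_le_of_le h2.le
        (Order.lt_succ_iff.1 (mk_Iio_toType_ord_lt a)) hK)
    have hb : ∀ S : Set (Order.succ #K).ord.ToType, #S ≤ #K → ∃ b, ∀ a ∈ S, a < b := by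
      intro S hS
      by_contra hc
      push Not at hc
      have hcof : IsCofinal S := fun b => hc b
      have h1 := Order.cof_le hcof
      rw [Ordinal.cof_toType, hreg.cof_ord] at h1
      exact absurd (h1.trans hS) (not_le.2 (Order.lt_succ _))
    obtain ⟨A0, h1, h4⟩ := exists_A1 h2.le ((Order.lt_succ _).trans_eq hW.symm) hb hseg
    have : Nonempty (Order.succ #K).ord.ToType :=
      mk_ne_zero_iff.1 ((zero_le.trans_lt (Order.lt_succ #K)).trans_eq hW.symm).ne'
    obtain ⟨p, j, hpj⟩ := exists_retr (hW.trans_le hs)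
    obtain ⟨A, hA⟩ := not_det p j hpj A0 h1 fun s => h4 K s le_rfl
    exact hA (hD A)
  · have hX : #μ.out = μ := mk_out μ
    have : Infinite μ.out := infinite_iff.2 (hμ.trans_eq hX.symm)
    have e : #(ℕ → μ.out) = 2 ^ μ := by
      rw [← hμ', ← power_def, hX, mk_nat]
    have := key μ.out (hX.trans_le hμL) (by
      rw [e, ← power_def, mk_list_eq_mk, hX, power_self_eq hμ])
    rwa [e] at this

end Pool.Agent.P.MP_0c777d_lc
end
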