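import Pool.Agent.Lib.PosetForcing.Cond
import Pool.Agent.Lib.PosetForcing.Tools
import Pool.Agent.P.MP_0c777d_lc.Defs

-- part Pool.Agent.P.MP_0c777d_lc.Core
section

set_option autoImplicit false

open Pool.Agent.Lib.PosetForcing Filter

namespace Pool.Agent.P.MP_0c777d_lc

universe u

/-- the set of moves on one board -/
abbrev LL : Type u := ULift.{u} (ℕ → Bool)

/-- the forcing -/
abbrev PP (K : Type u) : Type u := Cond (K × LL.{u} × ℕ)

instance : Uncountable LL.{u} := by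
  have : Uncountable (ℕ → Bool) := by
    rw [← Cardinal.aleph0_lt_mk_iff]
    simpa using Cardinal.aleph0_lt_continuum
  exact Equiv.ulift.symm.injective.uncountable

variable {K : Type u} (W : Ultrafilter K) [CountableInterFilter (W : Filter K)]

theorem const_ae (f : K → LL.{u}) : ∃ l, ∀ᶠ α in W, f α = l := by
  have : ∀ m, ∃ b, ∀ᶠ α in W, (f α).down m = b := fun m => by
    by_cases h : ∀ᶠ α in W, (f α).down m = true
    · exact ⟨true, h⟩
    · exact ⟨false, (Ultrafilter.eventually_not.2 h).mono fun α h => by simpa using h⟩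
  choose b hb using this
  exact ⟨⟨b⟩, (eventually_countable_forall.2 hb).mono fun α h => ULift.ext _ _ (funext h)⟩

theorem ae_all (X : LL.{u} → K → Prop) (h : ∀ l, ∀ᶠ α in W, X l α) : ∀ᶠ α in W, ∀ l, X l α := by
  classical
  by_contra hcon
  have h1 := Ultrafilter.eventually_not.2 hcon
  let f : K → LL.{u} := fun α => if h : ∃ l, ¬ X l α then h.choose else default
  obtain ⟨l, hl⟩ := const_ae W f
  obtain ⟨α, h2, h3, h4⟩ := (h1.and (hl.and (h l))).exists
  have h5 : ∃ l, ¬ X l α := not_forall.1 h2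
  apply h5.choose_spec
  have : f α = h5.choose := dif_pos h5
  rw [← this, h3]
  exact h4

/-- the limit of a family of conditions -/
def root {X : Type u} (r : K → Cond X) : Cond X where
  s := {z | ∀ᶠ α in W, z ∈ (r α).s}
  cnt := by
    by_contra hcon
    have h1 : Cardinal.aleph 1 ≤ Cardinal.mk {z | ∀ᶠ α in W, z ∈ (r α).s} := by
      rw [← Cardinal.succ_aleph0, Order.succ_le_iff, ← not_le, Cardinal.le_aleph0_iff_set_countable]
      exact hcon
    obtain ⟨T, hT, hT'⟩ := Cardinal.le_mk_iff_exists_subset.1 h1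
    have h2 : Cardinal.mk T ≤ Cardinal.mk LL.{u} := by
      rw [hT']
      simpa using Cardinal.aleph_one_le_continuum
    obtain ⟨j⟩ := (Cardinal.le_def _ _).1 h2
    have : Nonempty T := Cardinal.mk_ne_zero_iff.1 (hT' ▸ (Cardinal.aleph_pos 1).ne')
    obtain ⟨α, hα⟩ := (ae_all W (fun l α => (Function.invFun j l).1 ∈ (r α).s)
      fun l => hT (Function.invFun j l).2).exists
    have h3 : T ⊆ (r α).s := fun z hz => by
      have := hα (j ⟨z, hz⟩)
      rwa [Function.leftInverse_invFun j.injective] at this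
    have h4 := Cardinal.le_aleph0_iff_set_countable.2 ((r α).cnt.mono h3)
    rw [hT'] at h4
    exact absurd h4 (not_le.2 Cardinal.aleph0_lt_aleph_one)
  fn x b b' h h' := by
    obtain ⟨α, h1, h2⟩ := (Eventually.and h h').exists
    exact (r α).fn x b b' h1 h2

theorem root_le_of {X : Type u} {r : K → Cond X} {p : Cond X} (h : ∀ᶠ α in W, r α ≤ p) :
    root W r ≤ p := fun _ hz => h.mono fun _ h => h hz

theorem compat_ae {X : Type u} {r : K → Cond X} {p : Cond X} (h : p ≤ root W r) :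
    ∀ᶠ α in W, Cond.Compat p (r α) := by
  have : ∀ z ∈ p.s, ∀ᶠ α in W, ∀ b', (z.1, b') ∈ (r α).s → z.2 = b' := by
    rintro ⟨x, b⟩ hz
    by_contra hcon
    have h1 : (x, !b) ∈ (root W r).s := (Ultrafilter.eventually_not.2 hcon).mono fun α h => by
      push Not at h
      obtain ⟨b', h1, h2⟩ := h
      have : b' = !b := by cases b <;> cases b' <;> simp_all
      exact this ▸ h1
    have := p.fn x b (!b) hz (h h1)
    simp at this
  exact ((eventually_countable_ball p.cnt).2 this).mono fun α h x b b' h1 h2 => h (x, b) h1 b' h2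

omit [CountableInterFilter (W : Filter K)] in
theorem exists_fresh (p : PP K) : ∃ ξ : LL.{u}, ∀ α m b, ((α, ξ, m), b) ∉ p.s := by
  by_contra hcon
  push Not at hcon
  have : (Set.univ : Set LL.{u}) ⊆ (fun z : (K × LL.{u} × ℕ) × Bool => z.1.2.1) '' p.s :=
    fun ξ _ => by
      obtain ⟨α, m, b, h⟩ := hcon ξ
      exact ⟨_, h, rfl⟩
  exact Set.not_countable_univ ((p.cnt.image _).mono this)

/-- a fresh block -/
noncomputable def xi (p : PP K) : LL.{u} := (exists_fresh p).choose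

/-- the pattern `y` written on the block `(α, ξ)` -/
def pat (α : K) (ξ y : LL.{u}) : PP K where
  s := Set.range fun m => ((α, ξ, m), y.down m)
  cnt := Set.countable_range _
  fn := by
    rintro x b b' ⟨m, h⟩ ⟨m', h'⟩
    simp only [Prod.mk.injEq] at h h'
    obtain ⟨rfl, rfl⟩ := h
    obtain ⟨h1, rfl⟩ := h'
    simp only [Prod.mk.injEq] at h1
    rw [h1.2.2]

theorem pat_unique {α : K} {ξ y y' : LL.{u}} {p : PP K} (h : p ≤ pat α ξ y) (h' : p ≤ pat α ξ y') :
    y = y' := ULift.ext _ _ (funext fun m => p.fn _ _ _ (h ⟨m, rfl⟩) (h' ⟨m, rfl⟩))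

theorem exists_pat (α : K) (ξ : LL.{u}) (p : PP K) : ∃ q ≤ p, ∃ y, q ≤ pat α ξ y := by
  classical
  let y : LL.{u} := ⟨fun m => decide (((α, ξ, m), true) ∈ p.s)⟩
  obtain ⟨q, h1, h2⟩ : ∃ q, q ≤ p ∧ q ≤ pat α ξ y := by
    apply Cond.Compat.exists_le
    rintro x b b' h ⟨m, h'⟩
    simp only [Prod.mk.injEq] at h'
    obtain ⟨rfl, rfl⟩ := h'
    cases b
    · simp only [y]
      symm
      rw [decide_eq_false_iff_not]
      intro h2
      simpa using p.fn _ _ _ h h2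
    · simp [y, h]
  exact ⟨q, h1, y, h2⟩

/-- values of a name for a move -/
abbrev Val (K : Type u) : Type u := PP K → K → LL.{u} → Prop

/-- below `p`, `φ` describes a total function -/
structure Good (p : PP K) (φ : Val K) : Prop where
  mono : ∀ q r α l, r ≤ q → φ q α l → φ r α l
  total : ∀ α, ∀ q ≤ p, ∃ r ≤ q, ∃ l, φ r α l
  func : ∀ q ≤ p, ∀ α l l', φ q α l → φ q α l' → l = l'

theorem Good.le {p q : PP K} {φ : Val K} (h : Good p φ) (hq : q ≤ p) : Good q φ :=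
  ⟨h.mono, fun α r hr => h.total α r (hr.trans hq), fun r hr => h.func r (hr.trans hq)⟩

/-- agreement below `p` -/
def Agree (p : PP K) (φ ψ : Val K) : Prop := ∀ q ≤ p, ∀ α l, φ q α l ↔ ψ q α l

theorem Agree.le {p q : PP K} {φ ψ : Val K} (h : Agree p φ ψ) (hq : q ≤ p) : Agree q φ ψ :=
  fun r hr => h r (hr.trans hq)

theorem Agree.symm {p : PP K} {φ ψ : Val K} (h : Agree p φ ψ) : Agree p ψ φ :=
  fun r hr α l => (h r hr α l).symm

/-- candidates for the next positive set and the constant value of `φ` on it -/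
def Cand (p : PP K) (φ : Val K) (r : K → PP K) (y : LL.{u}) (c : (K → PP K) × LL.{u}) : Prop :=
  p ≤ root W c.1 ∧ (∀ᶠ α in W, c.1 α ≤ r α ∧ c.1 α ≤ pat α (xi (r α)) y) ∧
    ∀ᶠ α in W, ∀ q ≤ p, q ≤ c.1 α → φ q α c.2

/-- the least candidate -/
def Least (p : PP K) (φ : Val K) (r : K → PP K) (y : LL.{u}) (c : (K → PP K) × LL.{u}) : Prop :=
  Cand W p φ r y c ∧ ∀ c', WellOrderingRel c' c → ∀ q ≤ p, ¬ Cand W q φ r y c'

variable {W}

theorem Cand.le {p q : PP K} {φ : Val K} {r : K → PP K} {y : LL.{u}} {c : (K → PP K) × LL.{u}}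
    (h : Cand W p φ r y c) (hq : q ≤ p) : Cand W q φ r y c :=
  ⟨hq.trans h.1, h.2.1, h.2.2.mono fun _ h s hs => h s (hs.trans hq)⟩

theorem Cand.agree {p : PP K} {φ ψ : Val K} {r : K → PP K} {y : LL.{u}} {c : (K → PP K) × LL.{u}}
    (h : Cand W p φ r y c) (e : Agree p φ ψ) : Cand W p ψ r y c :=
  ⟨h.1, h.2.1, h.2.2.mono fun α h s hs hs' => (e s hs α _).1 (h s hs hs')⟩

theorem Least.le {p q : PP K} {φ : Val K} {r : K → PP K} {y : LL.{u}} {c : (K → PP K) × LL.{u}}
    (h : Least W p φ r y c) (hq : q ≤ p) : Least W q φ r y c :=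
  ⟨h.1.le hq, fun c' hc s hs => h.2 c' hc s (hs.trans hq)⟩

theorem Least.agree {p : PP K} {φ ψ : Val K} {r : K → PP K} {y : LL.{u}} {c : (K → PP K) × LL.{u}}
    (h : Least W p φ r y c) (e : Agree p φ ψ) : Least W p ψ r y c :=
  ⟨h.1.agree e, fun c' hc s hs h' => h.2 c' hc s hs (h'.agree (e.le hs).symm)⟩

theorem Least.unique {p : PP K} {φ : Val K} {r : K → PP K} {y : LL.{u}}
    {c c' : (K → PP K) × LL.{u}} (h : Least W p φ r y c) (h' : Least W p φ r y c') : c = c' := by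
  rcases trichotomous_of WellOrderingRel c c' with h1 | h1 | h1
  · exact absurd h.1 (h'.2 c h1 p le_rfl)
  · exact h1
  · exact absurd h'.1 (h.2 c' h1 p le_rfl)

theorem exists_cand (hW : ∀ α, {α} ∉ W) {p : PP K} {φ : Val K} (hφ : Good p φ) {r : K → PP K}
    (hr : p ≤ root W r) (y : LL.{u}) : ∃ q ≤ p, ∃ c, Cand W q φ r y c := by
  classical
  have h1 : ∀ᶠ α in W, ∀ z ∈ p.s, z.1.1 ≠ α :=
    (eventually_countable_ball p.cnt).2 fun z _ =>
      (Ultrafilter.eventually_not.2 (hW z.1.1)).mono fun α h e => h e.symm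
  have h2 : ∀ᶠ α in W, ∃ x : PP K × LL.{u},
      x.1 ≤ p ∧ x.1 ≤ r α ∧ x.1 ≤ pat α (xi (r α)) y ∧ φ x.1 α x.2 := by
    filter_upwards [h1, compat_ae W hr] with α g1 g2
    obtain ⟨s, hs⟩ := Cond.exists_lower
      (fun i : Fin 3 => ![p, r α, pat α (xi (r α)) y] i) (by
        have e1 : Cond.Compat p (pat α (xi (r α)) y) := by
          rintro x b b' h ⟨m, h'⟩
          simp only [Prod.mk.injEq] at h'
          obtain ⟨rfl, rfl⟩ := h'
          exact absurd rfl (g1 _ h)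
        have e2 : Cond.Compat (r α) (pat α (xi (r α)) y) := by
          rintro x b b' h ⟨m, h'⟩
          simp only [Prod.mk.injEq] at h'
          obtain ⟨rfl, rfl⟩ := h'
          exact absurd h ((exists_fresh (r α)).choose_spec α m b)
        intro i j
        fin_cases i <;> fin_cases j
        exacts [p.fn, g2, e1, g2.symm, (r α).fn, e2, e1.symm, e2.symm, (pat _ _ _).fn])
    obtain ⟨t, ht, l, hl⟩ := hφ.total α s (hs 0)
    exact ⟨(t, l), ht.trans (hs 0), ht.trans (hs 1), ht.trans (hs 2), hl⟩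
  have : Nonempty (PP K × LL.{u}) := ⟨(p, y)⟩
  obtain ⟨x, hx⟩ := h2.choice
  obtain ⟨l, hl⟩ := const_ae W fun α => (x α).2
  refine ⟨root W fun α => (x α).1, root_le_of W (hx.mono fun α h => h.1),
    (fun α => (x α).1, l), le_rfl, hx.mono fun α h => ⟨h.2.1, h.2.2.1⟩, ?_⟩
  filter_upwards [hx, hl] with α g1 g2 q _ hq
  exact hφ.mono _ _ _ _ hq (g2 ▸ g1.2.2.2)

theorem exists_least (hW : ∀ α, {α} ∉ W) {p : PP K} {φ : Val K} (hφ : Good p φ) {r : K → PP K}
    (hr : p ≤ root W r) (y : LL.{u}) : ∃ q ≤ p, ∃ c, Least W q φ r y c := by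
  obtain ⟨q, hq, c, hc⟩ := exists_cand hW hφ hr y
  obtain ⟨c, ⟨q, hq, hc⟩, hmin⟩ := (IsWellFounded.wf (r := WellOrderingRel)).has_min
    {c | ∃ q ≤ p, Cand W q φ r y c} ⟨c, q, hq, hc⟩
  exact ⟨q, hq, c, hc, fun c' h s hs h' => hmin c' ⟨s, hs.trans hq, h'⟩ h⟩

variable (W) in
/-- the tree of positive sets along the moves `s` of ONE -/
def Node (p : PP K) (n : ℕ) (Φ : ℕ → Val K) (s : ℕ → LL.{u}) (r : ℕ → K → PP K)
    (t : ℕ → LL.{u}) : Prop :=
  r 0 = (fun _ => ⊤) ∧ ∀ i < n, Least W p (Φ (2 * i + 1)) (r i) (s i) (r (i + 1), t i)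

section node
variable {p q : PP K} {n : ℕ} {Φ Φ' Ψ Ψ' : ℕ → Val K} {s s' : ℕ → LL.{u}} {r r' : ℕ → K → PP K}
  {t t' : ℕ → LL.{u}}

theorem Node.le (h : Node W p n Φ s r t) (hq : q ≤ p) : Node W q n Φ s r t :=
  ⟨h.1, fun i hi => (h.2 i hi).le hq⟩

theorem Node.agree (h : Node W p n Φ s r t) (e : ∀ i < 2 * n, Agree p (Φ i) (Φ' i)) :
    Node W p n Φ' s r t := ⟨h.1, fun i hi => (h.2 i hi).agree (e _ (by omega))⟩

theorem Node.unique (h : Node W p n Φ s r t) (h' : Node W p n Φ s' r' t')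
    (e : ∀ i < n, s i = s' i) : (∀ i ≤ n, r i = r' i) ∧ ∀ i < n, t i = t' i := by
  have h1 : ∀ i ≤ n, r i = r' i := by
    intro i hi
    induction i with
    | zero => exact h.1.trans h'.1.symm
    | succ i ih =>
      have := h.2 i hi
      rw [ih (by omega), e i hi] at this
      exact congrArg Prod.fst (this.unique (h'.2 i hi))
  refine ⟨h1, fun i hi => ?_⟩
  have := h.2 i hi
  rw [h1 i hi.le, e i hi] at this
  exact congrArg Prod.snd (this.unique (h'.2 i hi))

theorem Node.le_root (h : Node W p n Φ s r t) : p ≤ root W (r n) := by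
  cases n with
  | zero =>
    rw [h.1]
    intro z hz
    exact (Eventually.exists hz).elim fun _ h => h.elim
  | succ n => exact (h.2 n n.lt_succ_self).1.1

theorem exists_node (hW : ∀ α, {α} ∉ W) (hΦ : ∀ i < 2 * n, Good p (Φ i)) (s : ℕ → LL.{u}) :
    ∃ q ≤ p, ∃ r t, Node W q n Φ s r t := by
  induction n with
  | zero => exact ⟨p, le_rfl, fun _ _ => ⊤, s, rfl, fun i hi => absurd hi (by omega)⟩
  | succ n ih =>
    obtain ⟨q, hq, r, t, h⟩ := ih fun i hi => hΦ i (by omega)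
    obtain ⟨q', hq', c, hc⟩ := exists_least hW ((hΦ (2 * n + 1) (by omega)).le hq) h.le_root (s n)
    refine ⟨q', hq'.trans hq, Function.update r (n + 1) c.1, Function.update t n c.2, ?_,
      fun i hi => ?_⟩
    · simpa using h.1
    · rcases Nat.lt_succ_iff_lt_or_eq.1 hi with hi | rfl
      · rw [Function.update_of_ne (by omega), Function.update_of_ne (by omega),
          Function.update_of_ne (by omega)]
        exact (h.2 i hi).le hq'
      · rw [Function.update_of_ne (by omega), Function.update_self, Function.update_self]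
        exact hc

theorem exists_decide (α : K) (hΦ : ∀ i < n, Good p (Φ i)) :
    ∃ q ≤ p, ∃ s : ℕ → LL.{u}, ∀ i < n, Φ i q α (s i) := by
  induction n with
  | zero => exact ⟨p, le_rfl, default, fun i hi => absurd hi (by omega)⟩
  | succ n ih =>
    obtain ⟨q, hq, s, h⟩ := ih fun i hi => hΦ i (by omega)
    obtain ⟨q', hq', l, hl⟩ := (hΦ n n.lt_succ_self).total α q hq
    refine ⟨q', hq'.trans hq, Function.update s n l, fun i hi => ?_⟩
    rcases Nat.lt_succ_iff_lt_or_eq.1 hi with hi' | rfl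
    · rw [Function.update_of_ne (by omega)]
      exact (hΦ i hi).mono _ _ _ _ hq' (h i hi')
    · rwa [Function.update_self]

variable (W) in
/-- the move of ONE in inning `n` -/
def oneV (n : ℕ) (Φ : ℕ → Val K) : Val K := fun p α l => ∃ q, p ≤ q ∧
  ∃ s r t, Node W q n Φ s r t ∧ (∀ i < n, Φ (2 * i) q α (s i)) ∧ q ≤ pat α (xi (r n α)) l

variable (W) in
/-- the move of TWO in inning `n` -/
def twoV (Φ : ℕ → Val K) (n : ℕ) (Ψ : ℕ → Val K) : Val K := fun p β l => ∃ q, p ≤ q ∧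
  ∃ s r t, Node W q (n + 1) Φ s r t ∧ (∀ i < n + 1, Ψ (2 * i) q β (s i)) ∧ l = t n

theorem oneV_good (hW : ∀ α, {α} ∉ W) (hΦ : ∀ i < 2 * n, Good p (Φ i)) :
    Good p (oneV W n Φ) := by
  refine ⟨fun q r α l h ⟨q', h1, h2⟩ => ⟨q', h.trans h1, h2⟩, fun α q hq => ?_, ?_⟩
  · obtain ⟨q1, h1, s, hs⟩ := exists_decide (n := n) (Φ := fun i => Φ (2 * i)) α
      fun i hi => (hΦ _ (by omega)).le hq
    obtain ⟨q2, h2, r, t, h⟩ := exists_node hW (fun i hi => (hΦ i hi).le (h1.trans hq)) s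
    obtain ⟨q3, h3, l, hl⟩ := exists_pat α (xi (r n α)) q2
    exact ⟨q3, h3.trans (h2.trans h1), l, q3, le_rfl, s, r, t, h.le h3,
      fun i hi => (hΦ _ (by omega)).mono _ _ _ _ (h3.trans h2) (hs i hi), hl⟩
  · rintro q hq α l l' ⟨q1, e1, s, r, t, h1, h2, h3⟩ ⟨q2, e2, s', r', t', g1, g2, g3⟩
    have := ((h1.le e1).unique (g1.le e2) fun i hi => (hΦ (2 * i) (by omega)).func q hq α _ _
      ((hΦ _ (by omega)).mono _ _ _ _ e1 (h2 i hi))
      ((hΦ _ (by omega)).mono _ _ _ _ e2 (g2 i hi))).1 n le_rfl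
    rw [this] at h3
    exact pat_unique (e1.trans h3) (e2.trans g3)

theorem twoV_good (hW : ∀ α, {α} ∉ W) (hΦ : ∀ i, Good p (Φ i))
    (hΨ : ∀ i < 2 * n + 1, Good p (Ψ i)) : Good p (twoV W Φ n Ψ) := by
  refine ⟨fun q r α l h ⟨q', h1, h2⟩ => ⟨q', h.trans h1, h2⟩, fun α q hq => ?_, ?_⟩
  · obtain ⟨q1, h1, s, hs⟩ := exists_decide (n := n + 1) (Φ := fun i => Ψ (2 * i)) α
      fun i hi => (hΨ _ (by omega)).le hq
    obtain ⟨q2, h2, r, t, h⟩ := exists_node (n := n + 1) hW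
      (fun i _ => (hΦ i).le (h1.trans hq)) s
    exact ⟨q2, h2.trans h1, t n, q2, le_rfl, s, r, t, h,
      fun i hi => (hΨ _ (by omega)).mono _ _ _ _ h2 (hs i hi), rfl⟩
  · rintro q hq α l l' ⟨q1, e1, s, r, t, h1, h2, rfl⟩ ⟨q2, e2, s', r', t', g1, g2, rfl⟩
    exact ((h1.le e1).unique (g1.le e2) fun i hi => (hΨ (2 * i) (by omega)).func q hq α _ _
      ((hΨ _ (by omega)).mono _ _ _ _ e1 (h2 i hi))
      ((hΨ _ (by omega)).mono _ _ _ _ e2 (g2 i hi))).2 n n.lt_succ_self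

/-- monotone values -/
def Mon (φ : Val K) : Prop := ∀ q r α l, r ≤ q → φ q α l → φ r α l

theorem oneV_agree (hΦ : ∀ i, Mon (Φ i)) (hΦ' : ∀ i, Mon (Φ' i))
    (e : ∀ i < 2 * n, Agree p (Φ i) (Φ' i)) : Agree p (oneV W n Φ) (oneV W n Φ') := by
  have key : ∀ Φ Φ' : ℕ → Val K, (∀ i, Mon (Φ i)) → (∀ i < 2 * n, Agree p (Φ i) (Φ' i)) →
      ∀ q ≤ p, ∀ α l, oneV W n Φ q α l → oneV W n Φ' q α l := by
    rintro Φ Φ' hΦ e q hq α l ⟨q1, e1, s, r, t, h1, h2, h3⟩
    exact ⟨q, le_rfl, s, r, t, (h1.le e1).agree fun i hi => (e i hi).le hq,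
      fun i hi => (e _ (by omega) q hq α _).1 (hΦ _ _ _ _ _ e1 (h2 i hi)), e1.trans h3⟩
  exact fun q hq α l => ⟨key _ _ hΦ e q hq α l, key _ _ hΦ' (fun i hi => (e i hi).symm) q hq α l⟩

theorem twoV_agree (hΨ : ∀ i, Mon (Ψ i)) (hΨ' : ∀ i, Mon (Ψ' i))
    (e : ∀ i < 2 * n + 1, Agree p (Ψ i) (Ψ' i)) : Agree p (twoV W Φ n Ψ) (twoV W Φ n Ψ') := by
  have key : ∀ Ψ Ψ' : ℕ → Val K, (∀ i, Mon (Ψ i)) → (∀ i < 2 * n + 1, Agree p (Ψ i) (Ψ' i)) →
      ∀ q ≤ p, ∀ α l, twoV W Φ n Ψ q α l → twoV W Φ n Ψ' q α l := by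
    rintro Ψ Ψ' hΨ e q hq α l ⟨q1, e1, s, r, t, h1, h2, h3⟩
    exact ⟨q, le_rfl, s, r, t, h1.le e1,
      fun i hi => (e _ (by omega) q hq α _).1 (hΨ _ _ _ _ _ e1 (h2 i hi)), h3⟩
  exact fun q hq α l => ⟨key _ _ hΨ e q hq α l, key _ _ hΨ' (fun i hi => (e i hi).symm) q hq α l⟩

/-- every board of a play that follows the strategy of TWO is a board of the given play -/
theorem core (hW : ∀ α, {α} ∉ W) (hΦ : ∀ i, Good p (Φ i)) (hΨ : ∀ i, Good p (Ψ i))
    (h1 : ∀ n, ∀ q ≤ p, ∀ α l, oneV W n Φ q α l → Φ (2 * n) q α l)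
    (h2 : ∀ n, ∀ q ≤ p, ∀ α l, twoV W Φ n Ψ q α l → Ψ (2 * n + 1) q α l) (β : K) :
    ∃ q ≤ p, ∃ α, ∃ a : ℕ → LL.{u}, ∀ n, Φ n q α (a n) ∧ Ψ n q β (a n) := by
  obtain ⟨p1, hp1, ha⟩ := exists_le_forall Cond.exists_lower_of_antitone p
    (fun n q => ∃ l, Ψ n q β l) (fun n q r h ⟨l, hl⟩ => ⟨l, (hΨ n).mono _ _ _ _ h hl⟩)
    fun n => (hΨ n).total β
  choose a ha using ha
  obtain ⟨p2, hp2, hn⟩ := exists_le_forall Cond.exists_lower_of_antitone p1
    (fun n q => ∃ r t, Node W q n Φ (fun i => a (2 * i)) r t)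
    (fun n q r h ⟨r', t, hl⟩ => ⟨r', t, hl.le h⟩)
    fun n q hq => exists_node hW (fun i _ => (hΦ i).le (hq.trans hp1)) _
  choose R T hRT using hn
  have hp : p2 ≤ p := hp2.trans hp1
  have coh : ∀ n m, n ≤ m → (∀ i ≤ n, R n i = R m i) ∧ ∀ i < n, T n i = T m i := fun n m h =>
    (hRT n).unique ⟨(hRT m).1, fun i hi => (hRT m).2 i (by omega)⟩ fun _ _ => rfl
  let r : ℕ → K → PP K := fun i => R i i
  let t : ℕ → LL.{u} := fun i => T (i + 1) i
  have hnode : ∀ n, Node W p2 n Φ (fun i => a (2 * i)) r t := fun n => by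
    refine ⟨(hRT 0).1, fun i _ => ?_⟩
    have := (hRT (i + 1)).2 i i.lt_succ_self
    rwa [← (coh i (i + 1) i.le_succ).1 i le_rfl] at this
  have ha2 : ∀ n, Ψ n p2 β (a n) := fun n => (hΨ n).mono _ _ _ _ hp2 (ha n)
  have ht : ∀ n, t n = a (2 * n + 1) := fun n => (hΨ _).func p2 hp β _ _
    (h2 n p2 hp β _ ⟨p2, le_rfl, _, r, t, hnode _, fun i _ => ha2 _, rfl⟩) (ha2 _)
  have hc : ∀ n, Cand W p2 (Φ (2 * n + 1)) (r n) (a (2 * n)) (r (n + 1), t n) :=
    fun n => ((hnode (n + 1)).2 n n.lt_succ_self).1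
  obtain ⟨α, g1, g2, g3⟩ := ((eventually_countable_forall.2 fun n => (hc n).2.1).and
    ((eventually_countable_forall.2 fun n => (hc n).2.2).and
      (eventually_countable_forall.2 fun n => compat_ae W (hnode n).le_root))).exists
  obtain ⟨q1, hq1⟩ : ∃ q, ∀ i : Option ℕ, q ≤ i.elim p2 fun n => r n α := by
    have hanti : Antitone fun n => r n α := antitone_nat_of_succ_le fun n => (g1 n).1
    apply Cond.exists_lower
    rintro (_ | i) (_ | j)
    · exact p2.fn
    · exact g3 j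
    · exact (g3 i).symm
    · rcases le_total i j with hij | hij
      · exact Cond.compat_of_le (hanti hij) le_rfl
      · exact Cond.compat_of_le le_rfl (hanti hij)
  have hq : q1 ≤ p2 := hq1 none
  have heven : ∀ n, Φ (2 * n) q1 α (a (2 * n)) := by
    intro n
    induction n using Nat.strong_induction_on with
    | _ n ih =>
      exact h1 n q1 (hq.trans hp) α _ ⟨q1, le_rfl, _, r, t, (hnode n).le hq, ih,
        le_trans (hq1 (some (n + 1))) (g1 n).2⟩
  refine ⟨q1, hq.trans hp, α, a, fun n => ⟨?_, (hΨ n).mono _ _ _ _ hq (ha2 n)⟩⟩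
  obtain ⟨m, rfl | rfl⟩ := Nat.even_or_odd' n
  · exact heven m
  · exact ht m ▸ g2 m q1 hq (hq1 (some (m + 1)))

end node

end Pool.Agent.P.MP_0c777d_lc
end

-- part Pool.Agent.P.MP_0c777d_lc.Main
section

set_option autoImplicit false

open Pool.Agent.Lib.PosetForcing Filter

namespace Pool.Agent.P.MP_0c777d_lc

universe u

section inst
variable {P : Type u} [Preorder P]

instance clopen_isPos (h n K L : Name P) :
    Clopen fun U : Gen P => IsPos Mod.mem (h.val U) (n.val U) (K.val U) (L.val U) := by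
  unfold IsPos; infer_instance

instance clopen_isStrat (s w K L : Name P) (T : ∀ U : Gen P, Mod U → Prop)
    [∀ a : Name P, Clopen fun U => T U (a.val U)] :
    Clopen fun U : Gen P => IsStrat Mod.mem (s.val U) (w.val U) (K.val U) (L.val U) (T U) := by
  unfold IsStrat; infer_instance

instance clopen_follows (f s w : Name P) (T : ∀ U : Gen P, Mod U → Prop)
    [∀ a : Name P, Clopen fun U => T U (a.val U)] :
    Clopen fun U : Gen P => Follows Mod.mem (f.val U) (s.val U) (w.val U) (T U) := by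
  unfold Follows; infer_instance

instance clopen_oneWins (f A w K : Name P) :
    Clopen fun U : Gen P => OneWins Mod.mem (f.val U) (A.val U) (w.val U) (K.val U) := by
  unfold OneWins; infer_instance

instance clopen_det (w E L K : Name P) :
    Clopen fun U : Gen P => Det Mod.mem (w.val U) (E.val U) (L.val U) (K.val U) := by
  unfold Det; infer_instance

variable [OrderTop P]

/-- the name of the set of even numbers -/
def evName : Name P := fam fun n : ULift.{u} ℕ => natName (2 * n.down)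

theorem natName_mem_ev (m : ℕ) (U : Gen P) :
    Mod.mem ((natName m).val U) (evName.val U) ↔ ∃ n, m = 2 * n := by
  constructor
  · intro h
    exact forall_mem_fam (Φ := fun U x => x = (natName m).val U → ∃ n, m = 2 * n)
      (fun i U h => ⟨i.down, (natName_inj h).symm⟩) U _ h rfl
  · rintro ⟨n, rfl⟩
    exact mem_fam (fun n : ULift.{u} ℕ => natName (2 * n.down)) ⟨n⟩ U

theorem isEvens_ev (U : Gen P) : IsEvens Mod.mem (evName.val U) (omegaName.val U) := by
  refine ⟨forall_mem_fam (Φ := fun U x => Mod.mem x (omegaName.val U))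
    (fun i U => natName_mem_omega _ U) U, fun e he => ?_, fun x y hx => ?_⟩
  · have : e = (natName 0).val U := Mod.ext _ _ fun z => by simp [mem_natName, he]
    rw [this, natName_mem_ev]
    exact ⟨0, rfl⟩
  · revert y
    refine forall_mem_omega (Φ := fun U x => ∀ y, IsSucc Mod.mem y x →
      (Mod.mem y (evName.val U) ↔ ¬ Mod.mem x (evName.val U))) (fun n U y hy => ?_) U x hx
    have : y = (natName (n + 1)).val U :=
      Mod.ext _ _ fun z => (hy z).trans (natName_succ n U z).symm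
    rw [this, natName_mem_ev, natName_mem_ev]
    constructor
    · rintro ⟨a, ha⟩ ⟨b, hb⟩
      omega
    · intro h
      obtain ⟨m, rfl | rfl⟩ := Nat.even_or_odd' n
      · exact absurd ⟨m, rfl⟩ h
      · exact ⟨m + 1, by ring⟩

/-- the name of a finite sequence -/
def seqName (n : ℕ) (Y : ℕ → Name P) : Name P :=
  funName (fun i : ULift.{u} (Fin n) => natName i.down.val) fun i => Y i.down.val

theorem app_seqName {n i : ℕ} (Y : ℕ → Name P) (h : i < n) (U : Gen P) :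
    App Mod.mem ((seqName n Y).val U) ((natName i).val U) ((Y i).val U) :=
  app_funName (fun i : ULift.{u} (Fin n) => natName i.down.val) (fun i => Y i.down.val) ⟨⟨i, h⟩⟩ U

theorem isFunOn_seqName (n : ℕ) (Y : ℕ → Name P) (U : Gen P) :
    IsFunOn Mod.mem ((seqName n Y).val U) ((natName n).val U) fun _ => True := by
  refine of_forces_all (Φ := fun U => IsFunOn Mod.mem ((seqName n Y).val U) ((natName n).val U)
    fun _ => True) (fun p => ⟨p, le_rfl, ?_⟩) U
  rw [natName.eq_1 n]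
  refine forces_isFunOn_graph (V := fun _ _ => True) (fun i q _ _ => ⟨q, le_rfl,
    Forces.of_forall (fun U => ⟨mem_fam (fun i : ULift.{u} (Fin n) => natName i.down.val) i U,
      trivial⟩) q⟩)
    (fun j q _ _ => ⟨q, le_rfl, j, le_top, Forces.of_forall (fun _ => rfl) q⟩)
    fun i j q _ _ _ h => ⟨q, le_rfl, Forces.of_forall (fun _ => ?_) q⟩
  rw [h.natName_inj]

theorem eq_seqName {n : ℕ} {Y : ℕ → Name P} {U : Gen P} {h : Mod U} {V : Mod U → Prop}
    (hh : IsFunOn Mod.mem h ((natName n).val U) V)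
    (e : ∀ i < n, App Mod.mem h ((natName i).val U) ((Y i).val U)) : h = (seqName n Y).val U := by
  refine (isZFC U).fun_ext hh (isFunOn_seqName n Y U) fun x hx y hy => ?_
  obtain ⟨i, hi, rfl⟩ := (mem_natName U x).1 hx
  rw [hh.2.2 _ _ _ hy (e i hi)]
  exact app_seqName Y hi U

theorem seqName_inj {n m : ℕ} {Y Z : ℕ → Name P} {U : Gen P}
    (h : (seqName n Y).val U = (seqName m Z).val U) :
    n = m ∧ ∀ i < n, (Y i).val U = (Z i).val U := by
  have key : ∀ {n m : ℕ} {Y Z : ℕ → Name P}, (seqName n Y).val U = (seqName m Z).val U →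
      ∀ i < n, i < m := fun {n m Y Z} h i hi =>
    natName_mem_iff.1 ((isZFC U).app_val (isFunOn_seqName m Z U) (h ▸ app_seqName Y hi U)).1
  have e : n = m := le_antisymm (le_of_forall_lt (key h)) (le_of_forall_lt (key h.symm))
  subst e
  exact ⟨rfl, fun i hi => (isFunOn_seqName n Z U).2.2 _ _ _ (h ▸ app_seqName Y hi U)
    (app_seqName Z hi U)⟩

omit [OrderTop P] in
theorem exists_app_name (f x : Name P) :
    ∃ y : Name P, ∀ U, (∃ z, App Mod.mem (f.val U) (x.val U) z) →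
      App Mod.mem (f.val U) (x.val U) (y.val U) :=
  max_principle fun U z => App Mod.mem (f.val U) (x.val U) z

end inst

variable {K : Type u}

/-- the values of a name -/
def val (F : Name (PP K)) : Val K := fun p α l =>
  Forces p fun U => App Mod.mem (F.val U) ((elt α).val U) ((elt l).val U)

/-- the nice name with prescribed values -/
noncomputable def nm (φ : Val K) : Name (PP K) :=
  graphName (ι := {x : PP K × K × LL.{u} // φ x.1 x.2.1 x.2.2})
    (fun x => elt x.1.2.1) (fun x => elt x.1.2.2) fun x => x.1.1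

/-- being a move -/
abbrev IsMv (U : Gen (PP K)) (g : Mod U) : Prop :=
  IsFun Mod.mem g ((tyName K).val U) ((tyName LL.{u}).val U)

theorem val_mon (F : Name (PP K)) : Mon (val F) := fun _ _ _ _ h h' => Forces.mono h' h

theorem val_good {p : PP K} {F : Name (PP K)} (h : Forces p fun U => IsMv U (F.val U)) :
    Good p (val F) := by
  refine ⟨val_mon F, fun α q hq => ?_, fun q hq α l l' h1 h2 => ?_⟩
  · obtain ⟨y, hy⟩ := exists_app_name F (elt α)
    have h1 : Forces q fun U => App Mod.mem (F.val U) ((elt α).val U) (y.val U) :=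
      (h.mono hq).imp fun U h => hy U (h.2.1 _ (elt_mem_tyName α U))
    have h2 : Forces q fun U => Mod.mem (y.val U) ((tyName LL.{u}).val U) :=
      ((h.mono hq).and h1).imp fun U h => ((isZFC U).app_val h.1 h.2).2
    obtain ⟨r, hr, l, hl⟩ := h2.exists_fam
    exact ⟨r, hr, l, ((h1.mono hr).and hl).imp fun U h => h.2 ▸ h.1⟩
  · exact Forces.elt_inj (((h.mono hq).and (Forces.and h1 h2)).imp
      fun U h => h.1.2.2 _ _ _ h.2.1 h.2.2)

theorem val_nm {φ : Val K} {p : PP K} {α : K} {l : LL.{u}} (h : φ p α l) : val (nm φ) p α l :=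
  forces_app_graph (ι := {x : PP K × K × LL.{u} // φ x.1 x.2.1 x.2.2}) ⟨(p, α, l), h⟩ le_rfl

theorem nm_isMv {φ : Val K} {p : PP K} (h : Good p φ) :
    Forces p fun U => IsMv U ((nm φ).val U) := by
  refine forces_isFunOn_graph (V := fun U y => Mod.mem y ((tyName LL.{u}).val U))
    (fun i q _ _ => ⟨q, le_rfl,
      Forces.of_forall (fun U => ⟨elt_mem_tyName _ U, elt_mem_tyName _ U⟩) q⟩)
    (fun α q hq _ => ?_) fun i j q hq hi hj e => ⟨q, le_rfl, Forces.of_forall (fun _ => ?_) q⟩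
  · obtain ⟨r, hr, l, hl⟩ := h.total α q hq
    exact ⟨r, hr, ⟨(r, α, l), hl⟩, le_rfl, Forces.of_forall (fun _ => rfl) r⟩
  · have h1 := h.mono _ _ _ _ hi i.2
    rw [e.elt_inj] at h1
    rw [h.func q hq _ _ _ h1 (h.mono _ _ _ _ hj j.2)]

theorem nm_agree {φ ψ : Val K} {p : PP K} (hφ : Mon φ) (hψ : Mon ψ) (e : Agree p φ ψ) :
    Forces p fun U => (nm φ).val U = (nm ψ).val U := by
  have key : ∀ φ ψ : Val K, Mon φ → Agree p φ ψ →
      Forces p fun U => ∀ x, Mod.mem x ((nm φ).val U) → Mod.mem x ((nm ψ).val U) :=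
    fun φ ψ hφ e => forces_forall_mem (b := nm φ) fun i q hq hi => ⟨q, le_rfl,
      forces_el_mem (b := nm ψ) ⟨(q, i.1.2), (e q hq _ _).1 (hφ _ _ _ _ hi i.2)⟩ le_rfl⟩
  exact ((key φ ψ hφ e).and (key ψ φ hψ e.symm)).imp fun U h =>
    Mod.ext _ _ fun z => ⟨h.1 z, h.2 z⟩

theorem val_agree {F G : Name (PP K)} {p : PP K} (e : Forces p fun U => F.val U = G.val U) :
    Agree p (val F) (val G) := fun _ hq _ _ =>
  ⟨fun h => (Forces.and h (e.mono hq)).imp fun _ h => h.2 ▸ h.1,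
    fun h => (Forces.and h (e.mono hq)).imp fun _ h => h.2 ▸ h.1⟩

theorem eq_nm_val {F : Name (PP K)} {p : PP K} (h : Forces p fun U => IsMv U (F.val U)) :
    Forces p fun U => (nm (val F)).val U = F.val U := by
  have h1 : Forces p fun U => ∀ x y, App Mod.mem ((nm (val F)).val U) x y →
      App Mod.mem (F.val U) x y :=
    forces_forall_app_graph (Φ := fun U x y => App Mod.mem (F.val U) x y)
      fun i q _ hi => ⟨q, le_rfl, Forces.mono i.2 hi⟩
  exact ((h.and (nm_isMv (val_good h))).and h1).imp fun U h =>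
    (isZFC U).fun_ext h.1.2 h.1.1 fun x _ => h.2 x

/-- the name of a strategy -/
noncomputable def stratName (len : ℕ → ℕ) (G : ℕ → (ℕ → Val K) → Val K) : Name (PP K) :=
  funName (ι := ULift.{u} ℕ × (ℕ → Val K)) (fun x => seqName (len x.1.down) fun i => nm (x.2 i))
    fun x => nm (G x.1.down fun i => val (nm (x.2 i)))

section strat
variable {len : ℕ → ℕ} {G : ℕ → (ℕ → Val K) → Val K} {p : PP K}
  {T : ∀ U : Gen (PP K), Mod U → Prop} [∀ a : Name (PP K), Clopen fun U => T U (a.val U)]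

theorem strat_func (hlen : Function.Injective len) (hmon : ∀ n Φ, Mon (G n Φ))
    (hagree : ∀ n p Φ Φ', (∀ i, Mon (Φ i)) → (∀ i, Mon (Φ' i)) →
      (∀ i < len n, Agree p (Φ i) (Φ' i)) → Agree p (G n Φ) (G n Φ')) (p : PP K) :
    Forces p fun U => ∀ h g g', App Mod.mem ((stratName len G).val U) h g →
      App Mod.mem ((stratName len G).val U) h g' → g = g' := by
  refine forces_graph_functional fun i j q _ _ _ e => ⟨q, le_rfl, ?_⟩
  obtain ⟨⟨n⟩, Φ⟩ := i
  obtain ⟨⟨m⟩, Ψ⟩ := j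
  obtain ⟨U, hU⟩ := e.exists
  obtain rfl : n = m := hlen (seqName_inj hU).1
  exact nm_agree (hmon _ _) (hmon _ _) (hagree n q _ _ (fun _ => val_mon _) (fun _ => val_mon _)
    fun i hi => val_agree (e.imp fun U h => (seqName_inj h).2 i hi))

theorem strat_app (n : ℕ) (F : ℕ → Name (PP K))
    (hF : ∀ i < len n, Forces p fun U => IsMv U ((F i).val U)) :
    Forces p fun U => ∀ h, IsPos Mod.mem h ((natName (len n)).val U) ((tyName K).val U)
      ((tyName LL.{u}).val U) →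
      (∀ i < len n, App Mod.mem h ((natName i).val U) ((F i).val U)) →
      App Mod.mem ((stratName len G).val U) h
        ((nm (G n fun i => val (nm (val (F i))))).val U) := by
  intro U hU h h1 h2
  rw [eq_seqName (Y := fun i => nm (val (F i))) h1 fun i hi => by
    rw [eq_nm_val (hF i hi) U hU]; exact h2 i hi]
  exact app_funName (ι := ULift.{u} ℕ × (ℕ → Val K))
    (fun x => seqName (len x.1.down) fun i => nm (x.2 i))
    (fun x => nm (G x.1.down fun i => val (nm (x.2 i)))) (⟨n⟩, fun i => val (F i)) U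

theorem strat_isStrat (hlen : Function.Injective len) (hmon : ∀ n Φ, Mon (G n Φ))
    (hagree : ∀ n p Φ Φ', (∀ i, Mon (Φ i)) → (∀ i, Mon (Φ' i)) →
      (∀ i < len n, Agree p (Φ i) (Φ' i)) → Agree p (G n Φ) (G n Φ'))
    (hgood : ∀ n, ∀ q ≤ p, ∀ Φ, (∀ i < len n, Good q (Φ i)) → Good q (G n Φ))
    (hT : ∀ m U, T U ((natName m).val U) → ∃ n, m = len n) :
    Forces p fun U => IsStrat Mod.mem ((stratName len G).val U) (omegaName.val U)
      ((tyName K).val U) ((tyName LL.{u}).val U) (T U) := by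
  refine (strat_func hlen hmon hagree p).and ?_
  refine (forces_forall_mem_omega (Φ := (fun (U : Gen (PP K)) (n : Mod U) => ∀ h, T U n →
    IsPos Mod.mem h n ((tyName K).val U) ((tyName LL.{u}).val U) →
    ∃ g, App Mod.mem ((stratName len G).val U) h g ∧ IsMv U g :)) fun m q hq => ⟨q, le_rfl, ?_⟩).imp
    fun U h n x hn => h n hn x
  refine forces_forall fun h => forces_imp fun r hr h1 => ⟨r, le_rfl,
    forces_imp fun s hs h2 => ⟨s, le_rfl, ?_⟩⟩
  obtain ⟨U, hU⟩ := h1.exists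
  obtain ⟨n, rfl⟩ := hT m U hU
  choose F hF using fun i => exists_app_name h (natName i)
  have h3 : ∀ i < len n, Forces s fun U => App Mod.mem (h.val U) ((natName i).val U) ((F i).val U) :=
    fun i hi => h2.imp fun U h => hF i U (h.2.1 _ (natName_mem hi U))
  have h4 : ∀ i < len n, Forces s fun U => IsMv U ((F i).val U) := fun i hi =>
    (h2.and (h3 i hi)).imp fun U h => ((isZFC U).app_val h.1 h.2).2
  have h5 := nm_isMv (hgood n s (hs.trans (hr.trans hq)) (fun i => val (nm (val (F i))))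
    fun i hi => val_good (nm_isMv (val_good (h4 i hi))))
  intro U hU
  exact ⟨_, strat_app n F h4 U hU _ (h2 U hU) fun i hi => h3 i hi U hU, h5 U hU⟩

omit [∀ a : Name (PP K), Clopen fun U => T U (a.val U)] in
theorem strat_follows (hlen : Function.Injective len) (hmon : ∀ n Φ, Mon (G n Φ))
    (hagree : ∀ n p Φ Φ', (∀ i, Mon (Φ i)) → (∀ i, Mon (Φ' i)) →
      (∀ i < len n, Agree p (Φ i) (Φ' i)) → Agree p (G n Φ) (G n Φ'))
    (hT : ∀ n U, T U ((natName (len n)).val U)) {f : Name (PP K)} {F : ℕ → Name (PP K)}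
    (hf : Forces p fun U => IsPos Mod.mem (f.val U) (omegaName.val U) ((tyName K).val U)
      ((tyName LL.{u}).val U))
    (hs : Forces p fun U => Follows Mod.mem (f.val U) ((stratName len G).val U) (omegaName.val U)
      (T U))
    (hF : ∀ i, Forces p fun U => App Mod.mem (f.val U) ((natName i).val U) ((F i).val U)) (n : ℕ) :
    ∀ q ≤ p, ∀ α l, G n (fun i => val (F i)) q α l → val (F (len n)) q α l := by
  have h4 : ∀ i, Forces p fun U => IsMv U ((F i).val U) := fun i =>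
    (hf.and (hF i)).imp fun U h => ((isZFC U).app_val h.1 h.2).2
  have h5 : Forces p fun U => (nm (G n fun i => val (nm (val (F i))))).val U =
      (F (len n)).val U := by
    intro U hU
    obtain ⟨h, hh⟩ : ∃ h, IsRestr Mod.mem h (f.val U) ((natName (len n)).val U) :=
      Mod.sep (fun U z => ∃ x y, IsPair Mod.mem z x y ∧ Mod.mem x ((natName (len n)).val U)) U _
    refine strat_func hlen hmon hagree p U hU h _ _ ?_
      (hs U hU _ h _ (natName_mem_omega _ U) (hT n U) hh (hF _ U hU))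
    refine strat_app n F (fun i _ => h4 i) U hU h ((isZFC U).isFunOn_restr hh (hf U hU) ?_)
      fun i hi => ((isZFC U).app_restr hh).2 ⟨hF i U hU, natName_mem hi U⟩
    intro x hx
    obtain ⟨i, -, rfl⟩ := (mem_natName U x).1 hx
    exact natName_mem_omega i U
  intro q hq α l h
  refine (val_agree h5 q hq α l).1 (val_nm ?_)
  exact (hagree n p _ _ (fun _ => val_mon _) (fun _ => val_mon _)
    (fun i _ => val_agree (eq_nm_val (h4 i))) q hq α l).2 h

end strat

variable (W : Ultrafilter K) [CountableInterFilter (W : Filter K)]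

theorem det_holds (hW : ∀ α, {α} ∉ W) (U : Gen (PP K)) :
    Det Mod.mem (omegaName.val U) (evName.val U) ((tyName LL.{u}).val U) ((tyName K).val U) := by
  refine of_forces_all (Φ := fun U : Gen (PP K) => Det Mod.mem (omegaName.val U) (evName.val U)
    ((tyName LL.{u}).val U) ((tyName K).val U)) (fun p => ⟨p, le_rfl, ?_⟩) U
  refine forces_forall fun A => forces_imp fun q _ _ => ?_
  have hl1 : Function.Injective fun n : ℕ => 2 * n := fun a b h => by simpa using h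
  have hl2 : Function.Injective fun n : ℕ => 2 * n + 1 := fun a b h => by simpa using h
  have hm1 : ∀ n Φ, Mon (oneV W n Φ) := fun n Φ q r α l h ⟨q', h1, h2⟩ => ⟨q', h.trans h1, h2⟩
  have ha1 : ∀ n p Φ Φ', (∀ i, Mon (Φ i)) → (∀ i, Mon (Φ' i)) →
      (∀ i < 2 * n, Agree p (Φ i) (Φ' i)) → Agree p (oneV W n Φ) (oneV W n Φ') :=
    fun n p Φ Φ' => oneV_agree
  by_cases hc : Forces q fun U => ∀ f, IsPos Mod.mem f (omegaName.val U) ((tyName K).val U)
      ((tyName LL.{u}).val U) → Follows Mod.mem f ((stratName (fun n => 2 * n) (oneV W)).val U)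
      (omegaName.val U) (fun n => Mod.mem n (evName.val U)) →
      OneWins Mod.mem f (A.val U) (omegaName.val U) ((tyName K).val U)
  · refine ⟨q, le_rfl, ((strat_isStrat (T := fun U n => Mod.mem n (evName.val U)) hl1 hm1 ha1
      (fun n q _ Φ => oneV_good hW) fun m U h => (natName_mem_ev m U).1 h).and hc).imp
      fun U h => Or.inl ⟨_, h⟩⟩
  obtain ⟨r, hr, hc⟩ := exists_forces_not hc
  obtain ⟨f, hf⟩ := Forces.exists_name (Φ := fun U f => IsPos Mod.mem f (omegaName.val U)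
      ((tyName K).val U) ((tyName LL.{u}).val U) ∧
      Follows Mod.mem f ((stratName (fun n => 2 * n) (oneV W)).val U)
      (omegaName.val U) (fun n => Mod.mem n (evName.val U)) ∧
      ¬ OneWins Mod.mem f (A.val U) (omegaName.val U) ((tyName K).val U))
    (hc.imp fun U h => by simpa only [not_forall, exists_prop] using h)
  have hf1 := hf.imp fun _ h => h.1
  choose F hF using fun i => exists_app_name f (natName i)
  have hF1 : ∀ i, Forces r fun U => App Mod.mem (f.val U) ((natName i).val U) ((F i).val U) :=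
    fun i => hf1.imp fun U h => hF i U (h.2.1 _ (natName_mem_omega i U))
  have hF2 : ∀ i, Good r (val (F i)) := fun i =>
    val_good ((hf1.and (hF1 i)).imp fun U h => ((isZFC U).app_val h.1 h.2).2)
  have hF3 := strat_follows (T := fun U n => Mod.mem n (evName.val U)) hl1 hm1 ha1
    (fun n U => (natName_mem_ev _ U).2 ⟨n, rfl⟩) hf1 (hf.imp fun _ h => h.2.1) hF1
  have hm2 : ∀ n Ψ, Mon (twoV W (fun i => val (F i)) n Ψ) :=
    fun n Φ q r α l h ⟨q', h1, h2⟩ => ⟨q', h.trans h1, h2⟩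
  have ha2 : ∀ n p Ψ Ψ', (∀ i, Mon (Ψ i)) → (∀ i, Mon (Ψ' i)) →
      (∀ i < 2 * n + 1, Agree p (Ψ i) (Ψ' i)) →
      Agree p (twoV W (fun i => val (F i)) n Ψ) (twoV W (fun i => val (F i)) n Ψ') :=
    fun n p Φ Φ' => twoV_agree
  refine ⟨r, hr, (Forces.and (strat_isStrat (T := fun U n => ¬ Mod.mem n (evName.val U)) hl2 hm2 ha2
    (fun n q hq Ψ => twoV_good hW fun i => (hF2 i).le hq) fun m U h => ?_) ?_).imp
      fun U h => Or.inr ⟨_, h⟩⟩
  · obtain ⟨n, rfl | rfl⟩ := Nat.even_or_odd' m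
    · exact absurd ((natName_mem_ev _ U).2 ⟨n, rfl⟩) h
    · exact ⟨n, rfl⟩
  refine forces_forall fun g => forces_imp fun s hs hg1 => ⟨s, le_rfl,
    forces_imp fun s' hs' hg2 => ⟨s', le_rfl, forces_not_iff.2 fun s2 hs2 hg3 => ?_⟩⟩
  obtain ⟨b, hb⟩ := Forces.exists_name hg3
  obtain ⟨s3, hs3, β, hβ⟩ := (hb.imp fun _ h => h.1).exists_fam
  obtain ⟨a', ha'⟩ := Forces.exists_name (hb.imp fun _ h => h.2)
  have e1 : s3 ≤ s := hs3.trans (hs2.trans hs')
  have e2 : s3 ≤ r := e1.trans hs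
  replace hg1 := hg1.mono e1
  choose H hH using fun i => exists_app_name g (natName i)
  have hH1 : ∀ i, Forces s3 fun U => App Mod.mem (g.val U) ((natName i).val U) ((H i).val U) :=
    fun i => hg1.imp fun U h => hH i U (h.2.1 _ (natName_mem_omega i U))
  have hH2 : ∀ i, Forces s3 fun U => IsMv U ((H i).val U) := fun i =>
    (hg1.and (hH1 i)).imp fun U h => ((isZFC U).app_val h.1 h.2).2
  have hH3 := strat_follows (T := fun U n => ¬ Mod.mem n (evName.val U)) hl2 hm2 ha2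
    (fun n U h => by
      obtain ⟨m, hm⟩ := (natName_mem_ev _ U).1 h
      omega) hg1 (hg2.mono (hs3.trans hs2)) hH1
  obtain ⟨s4, hs4, α, a, ha⟩ := core hW (fun i => (hF2 i).le e2) (fun i => val_good (hH2 i))
    (fun n q hq => hF3 n q (hq.trans e2)) hH3 β
  have hwin : Forces s4 fun U => ∀ n, Mod.mem n (omegaName.val U) →
      ∀ g0, App Mod.mem (f.val U) n g0 →
        ∃ y, App Mod.mem g0 ((elt α).val U) y ∧ App Mod.mem (a'.val U) n y := by
    refine forces_forall_mem_omega fun n s5 hs5 => ⟨s5, le_rfl, Forces.mono ?_ hs5⟩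
    intro U hU g0 hg0
    have k1 := (hf1.mono (hs4.trans e2) U hU).2.2 _ _ _ hg0 ((hF1 n).mono (hs4.trans e2) U hU)
    obtain ⟨y, k2, k3⟩ := (ha'.mono (hs4.trans hs3) U hU).2 _ _ (natName_mem_omega n U)
      ((hH1 n).mono hs4 U hU)
    rw [hβ.mono hs4 U hU] at k2
    rw [((hH2 n).mono hs4 U hU).2.2 _ _ _ k2 ((ha n).2 U hU)] at k3
    exact ⟨_, k1 ▸ (ha n).1 U hU, k3⟩
  refine Forces.not_false (p := s4) fun U hU => (hf.mono (hs4.trans e2) U hU).2.2
    ⟨_, elt_mem_tyName α U, _, (ha'.mono (hs4.trans hs3) U hU).1,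
      fun n g0 hn => hwin U hU n hn g0⟩

/-- the generic subset of the set of moves attached to a board -/
noncomputable def gset (α : K) : Name (PP K) :=
  .mk {x : PP K × LL.{u} // ((α, x.2, 0), true) ∈ x.1.s} (fun x => elt x.1.2) fun x => x.1.1

theorem gset_ne {α β : K} (h : α ≠ β) (U : Gen (PP K)) : (gset α).val U ≠ (gset β).val U := by
  refine of_forces_all (Φ := fun U : Gen (PP K) => (gset α).val U ≠ (gset β).val U)
    (fun p => ?_) U
  have hfr := (exists_fresh p).choose_spec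
  obtain ⟨q, hq⟩ := Cond.exists_lower (fun i : Fin 3 =>
      ![p, pat α (xi p) ⟨fun _ => true⟩, pat β (xi p) ⟨fun _ => false⟩] i) (by
    have e1 : ∀ γ y, Cond.Compat p (pat γ (xi p) y) := by
      rintro γ y x b b' h ⟨m, h'⟩
      simp only [Prod.mk.injEq] at h'
      obtain ⟨rfl, rfl⟩ := h'
      exact absurd h (hfr γ m b)
    have e2 : Cond.Compat (pat α (xi p) ⟨fun _ => true⟩) (pat β (xi p) ⟨fun _ => false⟩) := by
      rintro x b b' ⟨m, h1⟩ ⟨m', h2⟩
      simp only [Prod.mk.injEq] at h1 h2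
      obtain ⟨rfl, -⟩ := h1
      simp only [Prod.mk.injEq] at h2
      exact absurd h2.1.1.symm h
    intro i j
    fin_cases i <;> fin_cases j
    exacts [p.fn, e1 _ _, e1 _ _, (e1 _ _).symm, (pat _ _ _).fn, e2, (e1 _ _).symm, e2.symm,
      (pat _ _ _).fn])
  refine ⟨q, hq 0, forces_not_iff.2 fun r hr e => ?_⟩
  have h1 : Forces r fun U => Mod.mem ((elt (xi p)).val U) ((gset β).val U) :=
    (e.and (forces_el_mem (b := gset α) ⟨(q, xi p), hq 1 ⟨0, rfl⟩⟩ hr)).imp fun U h => h.1 ▸ h.2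
  obtain ⟨s, hs, ⟨⟨t, l⟩, ht⟩, h2, h3⟩ := h1.exists_el
  obtain rfl : xi p = l := h3.elt_inj
  have := s.fn _ _ _ (h2 ht) ((hs.trans hr) (hq 2 ⟨0, rfl⟩))
  simp at this

theorem isFun_gset (U : Gen (PP K)) :
    IsFun Mod.mem ((funName (fun α : K => elt α) gset).val U) ((tyName K).val U)
      ((powName (tyName LL.{u})).val U) := by
  refine of_forces_all (Φ := fun U : Gen (PP K) => IsFun Mod.mem
    ((funName (fun α : K => elt α) gset).val U) ((tyName K).val U)
      ((powName (tyName LL.{u})).val U)) (fun p => ⟨p, le_rfl, ?_⟩) U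
  refine forces_isFunOn_graph (V := fun U y => Mod.mem y ((powName (tyName LL.{u})).val U))
    (fun i q _ _ => ⟨q, le_rfl, Forces.of_forall (fun U => ⟨elt_mem_tyName _ U, ?_⟩) q⟩)
    (fun j q _ _ => ⟨q, le_rfl, j, le_top, Forces.of_forall (fun _ => rfl) q⟩)
    fun i j q _ _ _ h => ⟨q, le_rfl, Forces.of_forall (fun _ => by rw [h.elt_inj]) q⟩
  rw [mem_powName]
  exact forall_mem (b := gset i) (Φ := fun U y => Mod.mem y ((tyName LL.{u}).val U))
    (fun j q _ => ⟨q, le_rfl, Forces.of_forall (fun U => elt_mem_tyName _ U) q⟩) U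

theorem inj_gset (U : Gen (PP K)) : ∀ x x' y,
    App Mod.mem ((funName (fun α : K => elt α) gset).val U) x y →
    App Mod.mem ((funName (fun α : K => elt α) gset).val U) x' y → x = x' := by
  have := of_forces_all (Φ := (fun U : Gen (PP K) => ∀ x y,
    App Mod.mem ((funName (fun α : K => elt α) gset).val U) x y → ∀ x' y',
    App Mod.mem ((funName (fun α : K => elt α) gset).val U) x' y' → y = y' → x = x' :))
    (fun p => ⟨p, le_rfl, forces_forall_app_graph fun i q _ _ => ⟨q, le_rfl,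
      forces_forall_app_graph fun j r _ _ => ⟨r, le_rfl, Forces.of_forall (fun U h => by
        by_cases e : i = j
        · rw [e]
        · exact absurd h (gset_ne e U)) r⟩⟩⟩) U
  exact fun x x' y h h' => this x y h x' y h' rfl

end Pool.Agent.P.MP_0c777d_lc
end

-- part Pool.Agent.P.MP_0c777d_lc.FreeCore
section

set_option autoImplicit false

/-! Combinatorial core without large cardinals: ONE reads fresh generic blocks of one column. -/

open Pool.Agent.Lib.PosetForcing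

namespace Pool.Agent.P.MP_0c777d_lc.Free

universe u

variable {J : Type u}

/-- values of a name for a move; boards and moves both range over `LL` -/
abbrev Vl (J : Type u) : Type u := PP J → LL.{u} → LL.{u} → Prop

/-- monotone values -/
def Mn (φ : Vl J) : Prop := ∀ q r α l, r ≤ q → φ q α l → φ r α l

/-- below `p`, `φ` describes a total function -/
structure Gd (p : PP J) (φ : Vl J) : Prop where
  mono : Mn φ
  total : ∀ α, ∀ q ≤ p, ∃ r ≤ q, ∃ l, φ r α l
  func : ∀ q ≤ p, ∀ α l l', φ q α l → φ q α l' → l = l'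

theorem Gd.le {p q : PP J} {φ : Vl J} (h : Gd p φ) (hq : q ≤ p) : Gd q φ :=
  ⟨h.mono, fun α r hr => h.total α r (hr.trans hq), fun r hr => h.func r (hr.trans hq)⟩

/-- agreement below `p` -/
def Ag (p : PP J) (φ ψ : Vl J) : Prop := ∀ q ≤ p, ∀ α l, φ q α l ↔ ψ q α l

theorem Ag.le {p q : PP J} {φ ψ : Vl J} (h : Ag p φ ψ) (hq : q ≤ p) : Ag q φ ψ :=
  fun r hr => h r (hr.trans hq)

theorem Ag.symm {p : PP J} {φ ψ : Vl J} (h : Ag p φ ψ) : Ag p ψ φ :=
  fun r hr α l => (h r hr α l).symm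

theorem Ag.trans {p : PP J} {φ ψ χ : Vl J} (h : Ag p φ ψ) (h' : Ag p ψ χ) : Ag p φ χ :=
  fun r hr α l => (h r hr α l).trans (h' r hr α l)

/-- `ψ` is the least representative of `φ` below `p` -/
def Lst (p : PP J) (φ ψ : Vl J) : Prop :=
  Ag p φ ψ ∧ ∀ ψ', WellOrderingRel ψ' ψ → ∀ q ≤ p, ¬ Ag q φ ψ'

theorem Lst.le {p q : PP J} {φ ψ : Vl J} (h : Lst p φ ψ) (hq : q ≤ p) : Lst q φ ψ :=
  ⟨h.1.le hq, fun ψ' h' r hr => h.2 ψ' h' r (hr.trans hq)⟩

theorem Lst.agree {p : PP J} {φ φ' ψ : Vl J} (h : Lst p φ ψ) (e : Ag p φ φ') : Lst p φ' ψ :=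
  ⟨e.symm.trans h.1, fun ψ' h' r hr h2 => h.2 ψ' h' r hr ((e.le hr).trans h2)⟩

theorem Lst.unique {p : PP J} {φ ψ ψ' : Vl J} (h : Lst p φ ψ) (h' : Lst p φ ψ') : ψ = ψ' := by
  rcases trichotomous_of WellOrderingRel ψ ψ' with h1 | h1 | h1
  · exact absurd h.1 (h'.2 ψ h1 p le_rfl)
  · exact h1
  · exact absurd h'.1 (h.2 ψ' h1 p le_rfl)

theorem exists_lst (p : PP J) (φ : Vl J) : ∃ q ≤ p, ∃ ψ, Lst q φ ψ := by
  obtain ⟨ψ, ⟨q, hq, hψ⟩, hmin⟩ := (IsWellFounded.wf (r := WellOrderingRel)).has_min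
    {ψ | ∃ q ≤ p, Ag q φ ψ} ⟨φ, p, le_rfl, fun _ _ _ _ => Iff.rfl⟩
  exact ⟨q, hq, ψ, hψ, fun ψ' h r hr h' => hmin ψ' ⟨r, hr.trans hq, h'⟩ h⟩

/-- a maximal antichain of conditions that fix the value of `ψ` on the board `α` -/
noncomputable def ac (ψ : Vl J) (α : LL.{u}) : Set (PP J) :=
  (exists_max_antichain {a : PP J | ∃ l, ∀ q ≤ a, ψ q α l}).choose

theorem ac_val {ψ : Vl J} {α : LL.{u}} {a : PP J} (h : a ∈ ac ψ α) : ∃ l, ∀ q ≤ a, ψ q α l :=
  (exists_max_antichain {a : PP J | ∃ l, ∀ q ≤ a, ψ q α l}).choose_spec.1 h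

theorem ac_unique {ψ : Vl J} {α : LL.{u}} {a a' q : PP J} (h : a ∈ ac ψ α) (h' : a' ∈ ac ψ α)
    (e : q ≤ a) (e' : q ≤ a') : a = a' :=
  (exists_max_antichain {a : PP J | ∃ l, ∀ q ≤ a, ψ q α l}).choose_spec.2.1 a h a' h' q e e'

theorem exists_ac {p : PP J} {φ ψ : Vl J} (hφ : Gd p φ) (e : Ag p φ ψ) (α : LL.{u}) :
    ∃ r ≤ p, ∃ a ∈ ac ψ α, r ≤ a := by
  obtain ⟨q, hq, l, hl⟩ := hφ.total α p le_rfl
  obtain ⟨a, ha, r, h1, h2⟩ :=
    (exists_max_antichain {a : PP J | ∃ l, ∀ q ≤ a, ψ q α l}).choose_spec.2.2 q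
      ⟨l, fun r hr => (e r (hr.trans hq) α l).1 (hφ.mono _ _ _ _ hr hl)⟩
  exact ⟨r, h2.trans hq, a, ha, h1⟩

/-- a block outside `T` -/
noncomputable def fresh (T : Set LL.{u}) : LL.{u} := Classical.epsilon fun ξ => ξ ∉ T

theorem fresh_notMem {T : Set LL.{u}} (hT : T.Countable) : fresh T ∉ T := by
  refine Classical.epsilon_spec (p := fun ξ => ξ ∉ T) ?_
  by_contra hcon
  push Not at hcon
  exact Set.not_countable_univ (hT.mono fun ξ _ => hcon ξ)

/-- the blocks used before inning `n` -/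
noncomputable def us (a : ℕ → PP J) : ℕ → Set LL.{u}
  | 0 => ∅
  | n + 1 => us a n ∪ {fresh (us a n)} ∪ (fun z : (J × LL.{u} × ℕ) × Bool => z.1.2.1) '' (a n).s

/-- the block read in inning `n` -/
noncomputable def blk (a : ℕ → PP J) (n : ℕ) : LL.{u} := fresh (us a n)

theorem us_countable (a : ℕ → PP J) (n : ℕ) : (us a n).Countable := by
  induction n with
  | zero => exact Set.countable_empty
  | succ n ih => exact (ih.union (Set.countable_singleton _)).union ((a n).cnt.image _)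

theorem us_mono (a : ℕ → PP J) : Monotone (us a) :=
  monotone_nat_of_le_succ fun _ _ h => Or.inl (Or.inl h)

theorem us_congr {a a' : ℕ → PP J} {n : ℕ} (e : ∀ i < n, a i = a' i) : us a n = us a' n := by
  induction n with
  | zero => rfl
  | succ n ih => rw [us, us, ih fun i hi => e i (by omega), e n n.lt_succ_self]

theorem blk_congr {a a' : ℕ → PP J} {n : ℕ} (e : ∀ i < n, a i = a' i) : blk a n = blk a' n := by
  rw [blk, blk, us_congr e]

theorem blk_ne (a : ℕ → PP J) {i n : ℕ} (h : i < n) : blk a i ≠ blk a n := fun e =>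
  fresh_notMem (us_countable a n) (us_mono a h (Or.inl (Or.inr e.symm)) : blk a n ∈ us a n)

theorem blk_fresh (a : ℕ → PP J) {i n : ℕ} (h : i < n) (j : J) (m : ℕ) (b : Bool) :
    ((j, blk a n, m), b) ∉ (a i).s := fun e =>
  fresh_notMem (us_countable a n) (us_mono a h (Or.inr ⟨_, e, rfl⟩) : blk a n ∈ us a n)

theorem exists_dec {p : PP J} {n : ℕ} {Φ : ℕ → Vl J} (α : LL.{u}) (hΦ : ∀ i < n, Gd p (Φ i)) :
    ∃ q ≤ p, ∃ s : ℕ → LL.{u}, ∀ i < n, Φ i q α (s i) := by
  induction n with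
  | zero => exact ⟨p, le_rfl, default, fun i hi => absurd hi (by omega)⟩
  | succ n ih =>
    obtain ⟨q, hq, s, h⟩ := ih fun i hi => hΦ i (by omega)
    obtain ⟨q', hq', l, hl⟩ := (hΦ n n.lt_succ_self).total α q hq
    refine ⟨q', hq'.trans hq, Function.update s n l, fun i hi => ?_⟩
    rcases Nat.lt_succ_iff_lt_or_eq.1 hi with hi' | rfl
    · rw [Function.update_of_ne (by omega)]
      exact (hΦ i hi).mono _ _ _ _ hq' (h i hi')
    · rwa [Function.update_self]

/-- the move of ONE in inning `n`: the generic pattern on a fresh block of the column `c α` -/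
def oneF (c : LL.{u} → J) (n : ℕ) (Φ : ℕ → Vl J) : Vl J := fun p α l =>
  ∃ (ψ : ℕ → Vl J) (a : ℕ → PP J),
    (∀ i < n, Lst p (Φ (2 * i + 1)) (ψ i) ∧ a i ∈ ac (ψ i) α ∧ p ≤ a i) ∧
      p ≤ pat (c α) (blk a n) l

theorem oneF_mon (c : LL.{u} → J) (n : ℕ) (Φ : ℕ → Vl J) : Mn (oneF c n Φ) :=
  fun _ _ _ _ h ⟨ψ, a, h1, h2⟩ =>
    ⟨ψ, a, fun i hi => ⟨(h1 i hi).1.le h, (h1 i hi).2.1, h.trans (h1 i hi).2.2⟩, h.trans h2⟩

theorem oneF_good (c : LL.{u} → J) {n : ℕ} {p : PP J} {Φ : ℕ → Vl J}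
    (hΦ : ∀ i < 2 * n, Gd p (Φ i)) : Gd p (oneF c n Φ) := by
  refine ⟨oneF_mon c n Φ, fun α q hq => ?_, ?_⟩
  · have key : ∀ m ≤ n, ∃ r ≤ q, ∃ (ψ : ℕ → Vl J) (a : ℕ → PP J),
        ∀ i < m, Lst r (Φ (2 * i + 1)) (ψ i) ∧ a i ∈ ac (ψ i) α ∧ r ≤ a i := by
      intro m hm
      induction m with
      | zero => exact ⟨q, le_rfl, Φ, fun _ => q, fun i hi => absurd hi (by omega)⟩
      | succ m ih =>
        obtain ⟨r, hr, ψ, a, h⟩ := ih (by omega)
        obtain ⟨r1, hr1, χ, hχ⟩ := exists_lst r (Φ (2 * m + 1))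
        obtain ⟨r2, hr2, x, hx, hx'⟩ := exists_ac
          ((hΦ (2 * m + 1) (by omega)).le (hr1.trans (hr.trans hq))) hχ.1 α
        refine ⟨r2, hr2.trans (hr1.trans hr), Function.update ψ m χ, Function.update a m x,
          fun i hi => ?_⟩
        rcases Nat.lt_succ_iff_lt_or_eq.1 hi with hi' | rfl
        · rw [Function.update_of_ne (by omega), Function.update_of_ne (by omega)]
          exact ⟨(h i hi').1.le (hr2.trans hr1), (h i hi').2.1,
            (hr2.trans hr1).trans (h i hi').2.2⟩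
        · rw [Function.update_self, Function.update_self]
          exact ⟨hχ.le hr2, hx, hx'⟩
    obtain ⟨r, hr, ψ, a, h⟩ := key n le_rfl
    obtain ⟨r', hr', l, hl⟩ := exists_pat (c α) (blk a n) r
    exact ⟨r', hr'.trans hr, l, ψ, a,
      fun i hi => ⟨(h i hi).1.le hr', (h i hi).2.1, hr'.trans (h i hi).2.2⟩, hl⟩
  · rintro q - α l l' ⟨ψ, a, h1, h2⟩ ⟨ψ', a', g1, g2⟩
    have e : ∀ i < n, a i = a' i := fun i hi => by
      have e1 := (h1 i hi).1.unique (g1 i hi).1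
      exact ac_unique (h1 i hi).2.1 (e1 ▸ (g1 i hi).2.1) (h1 i hi).2.2 (g1 i hi).2.2
    rw [blk_congr e] at h2
    exact pat_unique h2 g2

theorem oneF_agree (c : LL.{u} → J) {n : ℕ} {p : PP J} {Φ Φ' : ℕ → Vl J}
    (e : ∀ i < 2 * n, Ag p (Φ i) (Φ' i)) : Ag p (oneF c n Φ) (oneF c n Φ') := by
  have key : ∀ Φ Φ' : ℕ → Vl J, (∀ i < 2 * n, Ag p (Φ i) (Φ' i)) →
      ∀ q ≤ p, ∀ α l, oneF c n Φ q α l → oneF c n Φ' q α l := by
    rintro Φ Φ' e q hq α l ⟨ψ, a, h1, h2⟩
    exact ⟨ψ, a, fun i hi => ⟨(h1 i hi).1.agree ((e _ (by omega)).le hq), (h1 i hi).2⟩, h2⟩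
  exact fun q hq α l => ⟨key _ _ e q hq α l, key _ _ (fun i hi => (e i hi).symm) q hq α l⟩

/-- `q` extends the part of `x` outside the column `j` -/
def OffLe (j : J) (q x : PP J) : Prop := ∀ z ∈ x.s, z.1.1 ≠ j → z ∈ q.s

/-- `x` and `y` are compatible on the column `j` -/
def CC (j : J) (x y : PP J) : Prop :=
  ∀ z b b', z.1 = j → (z, b) ∈ x.s → (z, b') ∈ y.s → b = b'

theorem CC.symm {j : J} {x y : PP J} (h : CC j x y) : CC j y x :=
  fun z b b' e h1 h2 => (h z b' b e h2 h1).symm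

theorem cc_of_le {j : J} {x y r : PP J} (h : r ≤ x) (h' : r ≤ y) : CC j x y :=
  fun z b b' _ h1 h2 => r.fn z b b' (h h1) (h' h2)

theorem offLe_pat (j : J) (q : PP J) (ξ y : LL.{u}) : OffLe j q (pat j ξ y) := by
  rintro z ⟨m, rfl⟩ h
  exact absurd rfl h

theorem exists_glue {ι : Type} [Countable ι] (j : J) (q : PP J) (x : ι → PP J)
    (h1 : ∀ i k, CC j (x i) (x k)) (h2 : ∀ i, OffLe j q (x i)) :
    ∃ w, (∀ i, w ≤ x i) ∧ OffLe j w q ∧ OffLe j q w := by
  refine ⟨⟨{z | (z.1.1 ≠ j ∧ z ∈ q.s) ∨ (z.1.1 = j ∧ ∃ i, z ∈ (x i).s)}, ?_, ?_⟩, ?_, ?_, ?_⟩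
  · refine (q.cnt.union (Set.countable_iUnion fun i => (x i).cnt)).mono ?_
    rintro z (h | ⟨-, i, h⟩)
    · exact Or.inl h.2
    · exact Or.inr (Set.mem_iUnion.2 ⟨i, h⟩)
  · rintro z b b' (h | ⟨e, i, h⟩) (h' | ⟨e', k, h'⟩)
    · exact q.fn z b b' h.2 h'.2
    · exact absurd e' h.1
    · exact absurd e h'.1
    · exact h1 i k z b b' e h h'
  · intro i z hz
    by_cases e : z.1.1 = j
    · exact Or.inr ⟨e, i, hz⟩
    · exact Or.inl ⟨e, h2 i z hz e⟩
  · exact fun z hz e => Or.inl ⟨e, hz⟩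
  · rintro z (h | h) e
    · exact h.2
    · exact absurd h.1 e

section two
variable (j : J) (α : LL.{u}) (ψ : ℕ → Vl J)

/-- candidates for the condition that fixes the reply of TWO in inning `n` -/
def Cd (q : PP J) (a : ℕ → PP J) (s : ℕ → LL.{u}) (n : ℕ) (x : PP J) : Prop :=
  x ∈ ac (ψ n) α ∧ OffLe j q x ∧ (∀ i ≤ n, CC j x (pat j (blk a i) (s i))) ∧
    ∀ i < n, CC j x (a i)

/-- the tree of least candidates along the moves `s` of ONE -/
def Nd (q : PP J) (n : ℕ) (s : ℕ → LL.{u}) (a : ℕ → PP J) : Prop :=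
  ∀ i < n, Cd j α ψ q a s i (a i) ∧
    ∀ x, WellOrderingRel x (a i) → ∀ r ≤ q, ¬ Cd j α ψ r a s i x

/-- the move of TWO in inning `n` -/
def twoF (n : ℕ) (Ψ : ℕ → Vl J) : Vl J := fun q β l =>
  ∃ s a, Nd j α ψ q (n + 1) s a ∧ (∀ i < n + 1, Ψ (2 * i) q β (s i)) ∧ ∀ r ≤ a n, ψ n r α l

variable {j α ψ}
variable {p q r : PP J} {a a' : ℕ → PP J} {s s' : ℕ → LL.{u}} {n : ℕ} {x : PP J}
  {Φ Ψ Ψ' : ℕ → Vl J}

theorem Cd.le (h : Cd j α ψ q a s n x) (hr : r ≤ q) : Cd j α ψ r a s n x :=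
  ⟨h.1, fun z hz e => hr (h.2.1 z hz e), h.2.2⟩

theorem Cd.congr (h : Cd j α ψ q a s n x) (e : ∀ i < n, a i = a' i) (e' : ∀ i ≤ n, s i = s' i) :
    Cd j α ψ q a' s' n x :=
  ⟨h.1, h.2.1, fun i hi => by
    rw [← e' i hi, ← blk_congr fun k hk => e k (by omega)]
    exact h.2.2.1 i hi, fun i hi => e i hi ▸ h.2.2.2 i hi⟩

theorem Nd.le (h : Nd j α ψ q n s a) (hr : r ≤ q) : Nd j α ψ r n s a :=
  fun i hi => ⟨(h i hi).1.le hr, fun x hx t ht => (h i hi).2 x hx t (ht.trans hr)⟩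

theorem Nd.congr (h : Nd j α ψ q n s a) (e : ∀ i < n, a i = a' i) : Nd j α ψ q n s a' := by
  intro i hi
  rw [← e i hi]
  exact ⟨(h i hi).1.congr (fun k hk => e k (by omega)) fun _ _ => rfl, fun x hx t ht h' =>
    (h i hi).2 x hx t ht (h'.congr (fun k hk => (e k (by omega)).symm) fun _ _ => rfl)⟩

theorem Nd.unique (h : Nd j α ψ q n s a) (h' : Nd j α ψ q n s' a') (e : ∀ i < n, s i = s' i) :
    ∀ i < n, a i = a' i := by
  intro i
  induction i using Nat.strong_induction_on with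
  | _ i ih =>
    intro hi
    have e1 : ∀ k < i, a k = a' k := fun k hk => ih k hk (by omega)
    have e2 : ∀ k ≤ i, s k = s' k := fun k hk => e k (by omega)
    rcases trichotomous_of WellOrderingRel (a i) (a' i) with h1 | h1 | h1
    · exact absurd ((h i hi).1.congr e1 e2) ((h' i hi).2 _ h1 q le_rfl)
    · exact h1
    · exact absurd ((h' i hi).1.congr (fun k hk => (e1 k hk).symm) fun k hk => (e2 k hk).symm)
        ((h i hi).2 _ h1 q le_rfl)

theorem cc_pat_pat (a : ℕ → PP J) (s : ℕ → LL.{u}) (i k : ℕ) :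
    CC j (pat j (blk a i) (s i)) (pat j (blk a k) (s k)) := by
  rintro z b b' - ⟨m, h⟩ ⟨m', h'⟩
  simp only [Prod.mk.injEq] at h h'
  obtain ⟨rfl, rfl⟩ := h
  obtain ⟨h1, rfl⟩ := h'
  simp only [Prod.mk.injEq] at h1
  rcases lt_trichotomy i k with h | rfl | h
  · exact absurd h1.2.1.symm (blk_ne a h)
  · rw [h1.2.2]
  · exact absurd h1.2.1 (blk_ne a h)

theorem Nd.cc_pat (h : Nd j α ψ q n s a) {i : ℕ} (hi : i < n) (k : ℕ) :
    CC j (a i) (pat j (blk a k) (s k)) := by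
  rcases le_or_gt k i with hk | hk
  · exact (h i hi).1.2.2.1 k hk
  · rintro z b b' - h1 ⟨m, h'⟩
    simp only [Prod.mk.injEq] at h'
    obtain ⟨rfl, rfl⟩ := h'
    exact absurd h1 (blk_fresh a hk j m b)

theorem Nd.cc (h : Nd j α ψ q n s a) {i k : ℕ} (hi : i < n) (hk : k < n) : CC j (a i) (a k) := by
  rcases lt_trichotomy i k with h1 | rfl | h1
  · exact ((h k hk).1.2.2.2 i h1).symm
  · exact cc_of_le le_rfl le_rfl
  · exact (h i hi).1.2.2.2 k h1

theorem le_of_offLe (hj : ∀ z ∈ p.s, z.1.1 ≠ j) (hq : q ≤ p) {w : PP J} (h : OffLe j w q) :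
    w ≤ p := fun z hz => h z (hq hz) (hj z hz)

theorem exists_nd (hj : ∀ z ∈ p.s, z.1.1 ≠ j) (hΦ : ∀ i, Gd p (Φ i))
    (hψ : ∀ i, Ag p (Φ (2 * i + 1)) (ψ i)) (hq : q ≤ p) (n : ℕ) (s : ℕ → LL.{u}) :
    ∃ r ≤ q, ∃ a, Nd j α ψ r n s a := by
  induction n with
  | zero => exact ⟨q, le_rfl, fun _ => q, fun i hi => absurd hi (by omega)⟩
  | succ n ih =>
    obtain ⟨r, hr, a, h⟩ := ih
    obtain ⟨w, w1, w2, -⟩ := exists_glue (ι := Fin n ⊕ ℕ) j r
      (Sum.elim (fun i => a i) fun k => pat j (blk a k) (s k))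
      (by
        rintro (i | i) (k | k)
        · exact h.cc i.2 k.2
        · exact h.cc_pat i.2 k
        · exact (h.cc_pat k.2 i).symm
        · exact cc_pat_pat a s i k)
      (by
        rintro (i | i)
        · exact (h i i.2).1.2.1
        · exact offLe_pat j r _ _)
    have hw : w ≤ p := le_of_offLe hj (hr.trans hq) w2
    obtain ⟨t, ht, x, hx, hx'⟩ := exists_ac ((hΦ (2 * n + 1)).le hw) ((hψ n).le hw) α
    obtain ⟨v, v1, v2, -⟩ := exists_glue (ι := Unit) j t (fun _ => r)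
      (fun _ _ => cc_of_le le_rfl le_rfl) fun _ z hz e => ht (w2 z hz e)
    have hc : Cd j α ψ v a s n x := ⟨hx, fun z hz e => v2 z (hx' hz) e,
      fun i _ => cc_of_le hx' (ht.trans (w1 (Sum.inr i))),
      fun i hi => cc_of_le hx' (ht.trans (w1 (Sum.inl ⟨i, hi⟩)))⟩
    obtain ⟨y, ⟨v', hv', hy⟩, hmin⟩ := (IsWellFounded.wf (r := WellOrderingRel)).has_min
      {y | ∃ v ≤ r, Cd j α ψ v a s n y} ⟨x, v, v1 (), hc⟩
    have e : ∀ i < n, a i = Function.update a n y i := fun i hi =>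
      (Function.update_of_ne (by omega) _ _).symm
    refine ⟨v', hv'.trans hr, Function.update a n y, fun i hi => ?_⟩
    rcases Nat.lt_succ_iff_lt_or_eq.1 hi with hi' | rfl
    · exact (h.le hv').congr e i hi'
    · rw [Function.update_self]
      exact ⟨hy.congr e fun _ _ => rfl, fun z hz t ht h' => hmin z
        ⟨t, ht.trans hv', h'.congr (fun k hk => (e k hk).symm) fun _ _ => rfl⟩ hz⟩

theorem twoF_mon (hΨ : ∀ i < 2 * n + 1, Mn (Ψ i)) : Mn (twoF j α ψ n Ψ) :=
  fun _ _ _ _ h ⟨s, a, h1, h2, h3⟩ =>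
    ⟨s, a, h1.le h, fun i hi => hΨ _ (by omega) _ _ _ _ h (h2 i hi), h3⟩

theorem twoF_good (hj : ∀ z ∈ p.s, z.1.1 ≠ j) (hΦ : ∀ i, Gd p (Φ i))
    (hψ : ∀ i, Ag p (Φ (2 * i + 1)) (ψ i)) (hq : q ≤ p) (hΨ : ∀ i < 2 * n + 1, Gd q (Ψ i)) :
    Gd q (twoF j α ψ n Ψ) := by
  refine ⟨twoF_mon fun i hi => (hΨ i hi).mono, fun β r hr => ?_, ?_⟩
  · obtain ⟨r1, h1, s, hs⟩ := exists_dec (n := n + 1) (Φ := fun i => Ψ (2 * i)) β
      fun i hi => (hΨ _ (by omega)).le hr
    obtain ⟨r2, h2, a, h⟩ := exists_nd (α := α) hj hΦ hψ (h1.trans (hr.trans hq)) (n + 1) s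
    obtain ⟨l, hl⟩ := ac_val (h n n.lt_succ_self).1.1
    exact ⟨r2, h2.trans h1, l, s, a, h,
      fun i hi => (hΨ _ (by omega)).mono _ _ _ _ h2 (hs i hi), hl⟩
  · rintro r hr β l l' ⟨s, a, h1, h2, h3⟩ ⟨s', a', g1, g2, g3⟩
    have e := h1.unique g1 (fun i hi => (hΨ (2 * i) (by omega)).func r hr β _ _ (h2 i hi)
      (g2 i hi)) n n.lt_succ_self
    rw [← e] at g3
    obtain ⟨w, w1, w2, -⟩ := exists_glue (ι := Unit) j r (fun _ => a n)
      (fun _ _ => cc_of_le le_rfl le_rfl) fun _ => (h1 n n.lt_succ_self).1.2.1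
    have hw : w ≤ p := le_of_offLe hj (hr.trans hq) w2
    exact (hΦ (2 * n + 1)).func w hw α _ _ ((hψ n w hw α l).2 (h3 w (w1 ())))
      ((hψ n w hw α l').2 (g3 w (w1 ())))

theorem twoF_agree (e : ∀ i < 2 * n + 1, Ag p (Ψ i) (Ψ' i)) :
    Ag p (twoF j α ψ n Ψ) (twoF j α ψ n Ψ') := by
  have key : ∀ Ψ Ψ' : ℕ → Vl J, (∀ i < 2 * n + 1, Ag p (Ψ i) (Ψ' i)) →
      ∀ q ≤ p, ∀ β l, twoF j α ψ n Ψ q β l → twoF j α ψ n Ψ' q β l := by
    rintro Ψ Ψ' e q hq β l ⟨s, a, h1, h2, h3⟩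
    exact ⟨s, a, h1, fun i hi => (e _ (by omega) q hq β _).1 (h2 i hi), h3⟩
  exact fun q hq β l => ⟨key _ _ e q hq β l, key _ _ (fun i hi => (e i hi).symm) q hq β l⟩

/-- every board of a play that follows the strategy of TWO is the board `α` of the given play,
after a change of the condition on the column of `α` -/
theorem core {c : LL.{u} → J} (hj : ∀ z ∈ p.s, z.1.1 ≠ c α) (hΦ : ∀ i, Gd p (Φ i))
    (hψ : ∀ i, Lst p (Φ (2 * i + 1)) (ψ i)) (hq : q ≤ p) (hΨ : ∀ i, Gd q (Ψ i))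
    (h1 : ∀ n, ∀ r ≤ p, ∀ β l, oneF c n Φ r β l → Φ (2 * n) r β l)
    (h2 : ∀ n, ∀ r ≤ q, ∀ β l, twoF (c α) α ψ n Ψ r β l → Ψ (2 * n + 1) r β l) (β : LL.{u}) :
    ∃ r ≤ q, ∃ w ≤ p, OffLe (c α) r w ∧
      ∃ b : ℕ → LL.{u}, ∀ n, Φ n w α (b n) ∧ Ψ n r β (b n) := by
  obtain ⟨p1, hp1, hb⟩ := exists_le_forall Cond.exists_lower_of_antitone q
    (fun n r => ∃ l, Ψ n r β l) (fun n q r h ⟨l, hl⟩ => ⟨l, (hΨ n).mono _ _ _ _ h hl⟩)
    fun n => (hΨ n).total β
  choose b hb using hb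
  obtain ⟨p2, hp2, hn⟩ := exists_le_forall Cond.exists_lower_of_antitone p1
    (fun n r => ∃ a, Nd (c α) α ψ r n (fun i => b (2 * i)) a)
    (fun n q r h ⟨a, hl⟩ => ⟨a, hl.le h⟩)
    fun n r hr => exists_nd hj hΦ (fun i => (hψ i).1) (hr.trans (hp1.trans hq)) n _
  choose R hR using hn
  have hp : p2 ≤ q := hp2.trans hp1
  let a : ℕ → PP J := fun i => R (i + 1) i
  have hnode : ∀ n, Nd (c α) α ψ p2 n (fun i => b (2 * i)) a := fun n =>
    (hR n).congr fun i hi => Nd.unique (n := i + 1) (fun k hk => hR n k (by omega)) (hR (i + 1))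
      (fun _ _ => rfl) i i.lt_succ_self
  have hb2 : ∀ n, Ψ n p2 β (b n) := fun n => (hΨ n).mono _ _ _ _ hp2 (hb n)
  have ht : ∀ n, ∀ r ≤ a n, ψ n r α (b (2 * n + 1)) := fun n => by
    obtain ⟨l, hl⟩ := ac_val (hnode (n + 1) n n.lt_succ_self).1.1
    rwa [(hΨ _).func p2 hp β _ _
      (h2 n p2 hp β l ⟨_, a, hnode _, fun i _ => hb2 _, hl⟩) (hb2 _)] at hl
  obtain ⟨w, w1, w2, w3⟩ := exists_glue (ι := ℕ ⊕ ℕ) (c α) p2
    (Sum.elim a fun k => pat (c α) (blk a k) (b (2 * k)))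
    (by
      rintro (i | i) (k | k)
      · exact (hnode (i + k + 1)).cc (by omega) (by omega)
      · exact (hnode (i + 1)).cc_pat i.lt_succ_self k
      · exact ((hnode (k + 1)).cc_pat k.lt_succ_self i).symm
      · exact cc_pat_pat a (fun i => b (2 * i)) i k)
    (by
      rintro (i | i)
      · exact (hnode (i + 1) i i.lt_succ_self).1.2.1
      · exact offLe_pat _ p2 _ _)
  have hw : w ≤ p := le_of_offLe hj (hp.trans hq) w2
  refine ⟨p2, hp, w, hw, w3, b, fun n => ⟨?_, hb2 n⟩⟩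
  obtain ⟨m, rfl | rfl⟩ := Nat.even_or_odd' n
  · exact h1 m w hw α _ ⟨ψ, a, fun i _ => ⟨(hψ i).le hw,
      (hnode (i + 1) i i.lt_succ_self).1.1, w1 (Sum.inl i)⟩, w1 (Sum.inr m)⟩
  · exact ((hψ m).1 w hw α _).2 (ht m w (w1 (Sum.inl m)))

end two

end Pool.Agent.P.MP_0c777d_lc.Free
end

-- part Pool.Agent.P.MP_0c777d_lc.FreeIrr
section

set_option autoImplicit false

/-! All but continuum many columns are irrelevant for a given name of a payoff set. -/

open Pool.Agent.Lib.PosetForcing Cardinal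

namespace Pool.Agent.P.MP_0c777d_lc.Free

universe u

theorem exists_closed {J : Type u} (F : Set J → Set J) (κ : Cardinal.{u}) (hκ : ℵ₁ ≤ κ)
    (hF : ∀ S : Set J, #S ≤ κ → #(F S) ≤ κ) :
    ∃ S : Set J, #S ≤ κ ∧ ∀ T ⊆ S, T.Countable → ∃ S', T ⊆ S' ∧ F S' ⊆ S := by
  let I : Type u := (ℵ₁ : Cardinal.{u}).ord.ToType
  have hI : #I = ℵ₁ := mk_ord_toType _
  have hκ0 : ℵ₀ ≤ κ := aleph0_lt_aleph_one.le.trans hκ
  let G : I → Set J := (wellFounded_lt (α := I)).fix fun i rec => F (⋃ k : {k // k < i}, rec k.1 k.2)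
  have hG : ∀ i, G i = F (⋃ k : {k // k < i}, G k.1) := fun i =>
    (wellFounded_lt (α := I)).fix_eq _ i
  have hU : ∀ {ι : Type u} (f : ι → Set J), #ι ≤ κ → (∀ i, #(f i) ≤ κ) → #(⋃ i, f i) ≤ κ :=
    fun f h1 h2 => (mk_iUnion_le f).trans
      ((mul_le_mul' h1 (ciSup_le' h2)).trans (mul_eq_self hκ0).le)
  have hc : ∀ i, #(G i) ≤ κ := fun i => by
    induction i using WellFoundedLT.induction with
    | _ i ih =>
      rw [hG]
      exact hF _ (hU _ ((mk_subtype_le _).trans (hI ▸ hκ)) fun k => ih k.1 k.2)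
  refine ⟨⋃ i, G i, hU _ (hI ▸ hκ) hc, fun T hT hT' => ?_⟩
  choose g hg using fun x : T => Set.mem_iUnion.1 (hT x.2)
  have : Countable T := hT'.to_subtype
  obtain ⟨i, hi⟩ : ∃ i : I, ∀ x, g x < i := by
    by_contra hcon
    push Not at hcon
    have h1 : (Set.univ : Set I) ⊆ ⋃ x, Set.Iic (g x) := fun i _ => Set.mem_iUnion.2 (hcon i)
    have h2 : (⋃ x, Set.Iic (g x)).Countable := Set.countable_iUnion fun x => by
      rw [← Set.Iio_union_right]
      refine Set.Countable.union ?_ (Set.countable_singleton _)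
      rw [← le_aleph0_iff_set_countable, ← Order.lt_succ_iff, succ_aleph0]
      exact (mk_Iio_lt (g x) (by simp [I])).trans_eq hI
    have h3 := le_aleph0_iff_set_countable.2 (h2.mono h1)
    rw [mk_univ, hI] at h3
    exact absurd h3 (not_le.2 aleph0_lt_aleph_one)
  refine ⟨⋃ k : {k // k < i}, G k.1, fun x hx =>
    Set.mem_iUnion.2 ⟨⟨g ⟨x, hx⟩, hi _⟩, hg ⟨x, hx⟩⟩, ?_⟩
  rw [← hG]
  exact Set.subset_iUnion G i

theorem mk_LL : #LL.{u} = 𝔠 := by simp

theorem exists_irr {J : Type u} (hJ : 𝔠 < #J) (R N : (ℕ → LL.{u}) → PP J → Prop)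
    (hR : ∀ a q r, r ≤ q → R a q → R a r) (hN : ∀ a q r, r ≤ q → N a q → N a r)
    (hd : ∀ a r, R a r → N a r → False) (he : ∀ a p, ∃ q ≤ p, R a q ∨ N a q) :
    ∃ c : LL.{u} → J, Function.Injective c ∧
      ∀ α a r w, R a r → N a w → OffLe (c α) r w → False := by
  choose dec hdec hdec' using he
  let sp : PP J → Set J := fun p => (fun z : (J × LL.{u} × ℕ) × Bool => z.1.1) '' p.s
  have hsp : ∀ p, (sp p).Countable := fun p => p.cnt.image _
  obtain ⟨S, hS, hcl⟩ := exists_closed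
    (fun S : Set J => ⋃ x : {p : PP J // sp p ⊆ S} × (ℕ → LL.{u}), sp (dec x.2 x.1.1)) 𝔠
    aleph_one_le_continuum (fun S hS => by
      have h1 : #{z : (J × LL.{u} × ℕ) × Bool | z.1.1 ∈ S} ≤ 𝔠 := by
        refine (mk_le_of_injective (β := (S × LL.{u} × ℕ) × Bool)
          (f := fun z => ((⟨z.1.1.1, z.2⟩, z.1.1.2), z.1.2)) ?_).trans ?_
        · rintro ⟨⟨⟨a, b⟩, c⟩, h⟩ ⟨⟨⟨a', b'⟩, c'⟩, h'⟩ e
          simp only [Prod.mk.injEq, Subtype.mk.injEq] at e ⊢
          exact e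
        · simp only [mk_prod, lift_id, mk_LL, mk_nat, lift_aleph0, mk_bool, lift_ofNat,
            lift_uzero, continuum_mul_aleph0]
          calc #S * 𝔠 * 2 ≤ 𝔠 * 𝔠 * 𝔠 :=
                mul_le_mul' (mul_le_mul' hS le_rfl) (nat_lt_continuum 2).le
            _ = 𝔠 := by simp
      have h2 : #{p : PP J // sp p ⊆ S} ≤ 𝔠 := by
        refine (mk_le_of_injective (β := {t : Set ((J × LL.{u} × ℕ) × Bool) //
            t ⊆ {z | z.1.1 ∈ S} ∧ #t ≤ ℵ₀})
          (f := fun p => ⟨p.1.s, fun z hz => p.2 ⟨z, hz, rfl⟩,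
            le_aleph0_iff_set_countable.2 p.1.cnt⟩) ?_).trans ?_
        · rintro ⟨⟨s, _, _⟩, _⟩ ⟨⟨s', _, _⟩, _⟩ e
          simp only [Subtype.mk.injEq] at e
          subst e
          rfl
        · refine (mk_bounded_subset_le _ _).trans ?_
          calc max #{z : (J × LL.{u} × ℕ) × Bool | z.1.1 ∈ S} ℵ₀ ^ ℵ₀ ≤ 𝔠 ^ ℵ₀ :=
                power_le_power_right (max_le h1 aleph0_le_continuum)
            _ = 𝔠 := continuum_power_aleph0
      refine (mk_iUnion_le _).trans ?_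
      have h3 : #({p : PP J // sp p ⊆ S} × (ℕ → LL.{u})) ≤ 𝔠 := by
        rw [mk_prod, lift_id, lift_id]
        have : #(ℕ → LL.{u}) = 𝔠 := by simp
        rw [this]
        exact (mul_le_mul' h2 le_rfl).trans continuum_mul_self.le
      exact (mul_le_mul' h3 (ciSup_le' fun x => (le_aleph0_iff_set_countable.2 (hsp _)).trans
        aleph0_le_continuum)).trans continuum_mul_self.le)
  have : Infinite J := infinite_iff.2 (aleph0_le_continuum.trans hJ.le)
  have h4 : #LL.{u} ≤ #(Sᶜ : Set J) := by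
    rw [mk_compl_of_infinite S (hS.trans_lt hJ), mk_LL]
    exact hJ.le
  obtain ⟨c⟩ := (le_def _ _).1 h4
  refine ⟨fun α => (c α).1, fun α β h => c.injective (Subtype.ext h), fun α a r w h1 h2 h3 => ?_⟩
  let p0 : PP J := ⟨{z ∈ r.s | z.1.1 ∈ S}, r.cnt.mono fun _ h => h.1,
    fun x b b' h h' => r.fn x b b' h.1 h'.1⟩
  obtain ⟨S', g1, g2⟩ := hcl (sp p0) (by rintro _ ⟨z, hz, rfl⟩; exact hz.2) (hsp _)
  have g3 : sp (dec a p0) ⊆ S := (Set.subset_iUnion
    (fun x : {p : PP J // sp p ⊆ S'} × (ℕ → LL.{u}) => sp (dec x.2 x.1.1)) (⟨p0, g1⟩, a)).trans g2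
  rcases hdec' a p0 with h | h
  · obtain ⟨t, t1, t2⟩ := Cond.Compat.exists_le (p := dec a p0) (q := w) fun x b b' k1 k2 => by
      have k3 : x.1 ∈ S := g3 ⟨_, k1, rfl⟩
      exact (dec a p0).fn x b b' k1
        (hdec a p0 ⟨h3 _ k2 fun e => (c α).2 ((show x.1 = (c α).1 from e) ▸ k3), k3⟩)
    exact hd a t (hR a _ _ t1 h) (hN a _ _ t2 h2)
  · obtain ⟨t, t1, t2⟩ := Cond.Compat.exists_le (p := dec a p0) (q := r) fun x b b' k1 k2 =>
      (dec a p0).fn x b b' k1 (hdec a p0 ⟨k2, g3 ⟨_, k1, rfl⟩⟩)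
    exact hd a t (hR a _ _ t2 h1) (hN a _ _ t1 h)

end Pool.Agent.P.MP_0c777d_lc.Free
end

-- part Pool.Agent.P.MP_0c777d_lc.FreeMain
section

set_option autoImplicit false

/-! After adding more than continuum many subsets of `ω₁`, the statement `D(L, L)` holds for the
set `L` of ground model reals. -/

open Pool.Agent.Lib.PosetForcing Cardinal

namespace Pool.Agent.P.MP_0c777d_lc.Free

universe u

variable {J : Type u}

/-- the values of a name -/
def vl (F : Name (PP J)) : Vl J := fun p α l =>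
  Forces p fun U => App Mod.mem (F.val U) ((elt α).val U) ((elt l).val U)

/-- the nice name with prescribed values -/
noncomputable def nn (φ : Vl J) : Name (PP J) :=
  graphName (ι := {x : PP J × LL.{u} × LL.{u} // φ x.1 x.2.1 x.2.2})
    (fun x => elt x.1.2.1) (fun x => elt x.1.2.2) fun x => x.1.1

/-- being a move -/
abbrev Mv (U : Gen (PP J)) (g : Mod U) : Prop :=
  IsFun Mod.mem g ((tyName LL.{u}).val U) ((tyName LL.{u}).val U)

theorem vl_mon (F : Name (PP J)) : Mn (vl F) := fun _ _ _ _ h h' => Forces.mono h' h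

theorem vl_good {p : PP J} {F : Name (PP J)} (h : Forces p fun U => Mv U (F.val U)) :
    Gd p (vl F) := by
  refine ⟨vl_mon F, fun α q hq => ?_, fun q hq α l l' h1 h2 => ?_⟩
  · obtain ⟨y, hy⟩ := exists_app_name F (elt α)
    have h1 : Forces q fun U => App Mod.mem (F.val U) ((elt α).val U) (y.val U) :=
      (h.mono hq).imp fun U h => hy U (h.2.1 _ (elt_mem_tyName α U))
    have h2 : Forces q fun U => Mod.mem (y.val U) ((tyName LL.{u}).val U) :=
      ((h.mono hq).and h1).imp fun U h => ((isZFC U).app_val h.1 h.2).2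
    obtain ⟨r, hr, l, hl⟩ := h2.exists_fam
    exact ⟨r, hr, l, ((h1.mono hr).and hl).imp fun U h => h.2 ▸ h.1⟩
  · exact Forces.elt_inj (((h.mono hq).and (Forces.and h1 h2)).imp
      fun U h => h.1.2.2 _ _ _ h.2.1 h.2.2)

theorem vl_nn {φ : Vl J} {p : PP J} {α l : LL.{u}} (h : φ p α l) : vl (nn φ) p α l :=
  forces_app_graph (ι := {x : PP J × LL.{u} × LL.{u} // φ x.1 x.2.1 x.2.2}) ⟨(p, α, l), h⟩ le_rfl

theorem nn_mv {φ : Vl J} {p : PP J} (h : Gd p φ) : Forces p fun U => Mv U ((nn φ).val U) := by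
  refine forces_isFunOn_graph (V := fun U y => Mod.mem y ((tyName LL.{u}).val U))
    (fun i q _ _ => ⟨q, le_rfl,
      Forces.of_forall (fun U => ⟨elt_mem_tyName _ U, elt_mem_tyName _ U⟩) q⟩)
    (fun α q hq _ => ?_) fun i j q hq hi hj e => ⟨q, le_rfl, Forces.of_forall (fun _ => ?_) q⟩
  · obtain ⟨r, hr, l, hl⟩ := h.total α q hq
    exact ⟨r, hr, ⟨(r, α, l), hl⟩, le_rfl, Forces.of_forall (fun _ => rfl) r⟩
  · have h1 := h.mono _ _ _ _ hi i.2
    rw [e.elt_inj] at h1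
    rw [h.func q hq _ _ _ h1 (h.mono _ _ _ _ hj j.2)]

theorem nn_agree {φ ψ : Vl J} {p : PP J} (hφ : Mn φ) (hψ : Mn ψ) (e : Ag p φ ψ) :
    Forces p fun U => (nn φ).val U = (nn ψ).val U := by
  have key : ∀ φ ψ : Vl J, Mn φ → Ag p φ ψ →
      Forces p fun U => ∀ x, Mod.mem x ((nn φ).val U) → Mod.mem x ((nn ψ).val U) :=
    fun φ ψ hφ e => forces_forall_mem (b := nn φ) fun i q hq hi => ⟨q, le_rfl,
      forces_el_mem (b := nn ψ) ⟨(q, i.1.2), (e q hq _ _).1 (hφ _ _ _ _ hi i.2)⟩ le_rfl⟩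
  exact ((key φ ψ hφ e).and (key ψ φ hψ e.symm)).imp fun U h =>
    Mod.ext _ _ fun z => ⟨h.1 z, h.2 z⟩

theorem vl_agree {F G : Name (PP J)} {p : PP J} (e : Forces p fun U => F.val U = G.val U) :
    Ag p (vl F) (vl G) := fun _ hq _ _ =>
  ⟨fun h => (Forces.and h (e.mono hq)).imp fun _ h => h.2 ▸ h.1,
    fun h => (Forces.and h (e.mono hq)).imp fun _ h => h.2 ▸ h.1⟩

theorem eq_nn_vl {F : Name (PP J)} {p : PP J} (h : Forces p fun U => Mv U (F.val U)) :
    Forces p fun U => (nn (vl F)).val U = F.val U := by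
  have h1 : Forces p fun U => ∀ x y, App Mod.mem ((nn (vl F)).val U) x y →
      App Mod.mem (F.val U) x y :=
    forces_forall_app_graph (Φ := fun U x y => App Mod.mem (F.val U) x y)
      fun i q _ hi => ⟨q, le_rfl, Forces.mono i.2 hi⟩
  exact ((h.and (nn_mv (vl_good h))).and h1).imp fun U h =>
    (isZFC U).fun_ext h.1.2 h.1.1 fun x _ => h.2 x

/-- the name of a strategy -/
noncomputable def strN (len : ℕ → ℕ) (G : ℕ → (ℕ → Vl J) → Vl J) : Name (PP J) :=
  funName (ι := ULift.{u} ℕ × (ℕ → Vl J)) (fun x => seqName (len x.1.down) fun i => nn (x.2 i))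
    fun x => nn (G x.1.down fun i => vl (nn (x.2 i)))

section strat
variable {len : ℕ → ℕ} {G : ℕ → (ℕ → Vl J) → Vl J} {p : PP J}
  {T : ∀ U : Gen (PP J), Mod U → Prop} [∀ a : Name (PP J), Clopen fun U => T U (a.val U)]

theorem str_func (hlen : Function.Injective len) (hmon : ∀ n Φ, (∀ i, Mn (Φ i)) → Mn (G n Φ))
    (hagree : ∀ n p Φ Φ', (∀ i < len n, Ag p (Φ i) (Φ' i)) → Ag p (G n Φ) (G n Φ')) (p : PP J) :
    Forces p fun U => ∀ h g g', App Mod.mem ((strN len G).val U) h g →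
      App Mod.mem ((strN len G).val U) h g' → g = g' := by
  refine forces_graph_functional fun i j q _ _ _ e => ⟨q, le_rfl, ?_⟩
  obtain ⟨⟨n⟩, Φ⟩ := i
  obtain ⟨⟨m⟩, Ψ⟩ := j
  obtain ⟨U, hU⟩ := e.exists
  obtain rfl : n = m := hlen (seqName_inj hU).1
  exact nn_agree (hmon _ _ fun _ => vl_mon _) (hmon _ _ fun _ => vl_mon _) (hagree n q _ _
    fun i hi => vl_agree (e.imp fun U h => (seqName_inj h).2 i hi))

theorem str_app (n : ℕ) (F : ℕ → Name (PP J))
    (hF : ∀ i < len n, Forces p fun U => Mv U ((F i).val U)) :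
    Forces p fun U => ∀ h, IsPos Mod.mem h ((natName (len n)).val U) ((tyName LL.{u}).val U)
      ((tyName LL.{u}).val U) →
      (∀ i < len n, App Mod.mem h ((natName i).val U) ((F i).val U)) →
      App Mod.mem ((strN len G).val U) h
        ((nn (G n fun i => vl (nn (vl (F i))))).val U) := by
  intro U hU h h1 h2
  rw [eq_seqName (Y := fun i => nn (vl (F i))) h1 fun i hi => by
    rw [eq_nn_vl (hF i hi) U hU]; exact h2 i hi]
  exact app_funName (ι := ULift.{u} ℕ × (ℕ → Vl J))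
    (fun x => seqName (len x.1.down) fun i => nn (x.2 i))
    (fun x => nn (G x.1.down fun i => vl (nn (x.2 i)))) (⟨n⟩, fun i => vl (F i)) U

theorem str_isStrat (hlen : Function.Injective len) (hmon : ∀ n Φ, (∀ i, Mn (Φ i)) → Mn (G n Φ))
    (hagree : ∀ n p Φ Φ', (∀ i < len n, Ag p (Φ i) (Φ' i)) → Ag p (G n Φ) (G n Φ'))
    (hgood : ∀ n, ∀ q ≤ p, ∀ Φ, (∀ i < len n, Gd q (Φ i)) → Gd q (G n Φ))
    (hT : ∀ m U, T U ((natName m).val U) → ∃ n, m = len n) :
    Forces p fun U => IsStrat Mod.mem ((strN len G).val U) (omegaName.val U)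
      ((tyName LL.{u}).val U) ((tyName LL.{u}).val U) (T U) := by
  refine (str_func hlen hmon hagree p).and ?_
  refine (forces_forall_mem_omega (Φ := (fun (U : Gen (PP J)) (n : Mod U) => ∀ h, T U n →
    IsPos Mod.mem h n ((tyName LL.{u}).val U) ((tyName LL.{u}).val U) →
    ∃ g, App Mod.mem ((strN len G).val U) h g ∧ Mv U g :)) fun m q hq => ⟨q, le_rfl, ?_⟩).imp
    fun U h n x hn => h n hn x
  refine forces_forall fun h => forces_imp fun r hr h1 => ⟨r, le_rfl,
    forces_imp fun s hs h2 => ⟨s, le_rfl, ?_⟩⟩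
  obtain ⟨U, hU⟩ := h1.exists
  obtain ⟨n, rfl⟩ := hT m U hU
  choose F hF using fun i => exists_app_name h (natName i)
  have h3 : ∀ i < len n, Forces s fun U => App Mod.mem (h.val U) ((natName i).val U) ((F i).val U) :=
    fun i hi => h2.imp fun U h => hF i U (h.2.1 _ (natName_mem hi U))
  have h4 : ∀ i < len n, Forces s fun U => Mv U ((F i).val U) := fun i hi =>
    (h2.and (h3 i hi)).imp fun U h => ((isZFC U).app_val h.1 h.2).2
  have h5 := nn_mv (hgood n s (hs.trans (hr.trans hq)) (fun i => vl (nn (vl (F i))))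
    fun i hi => vl_good (nn_mv (vl_good (h4 i hi))))
  intro U hU
  exact ⟨_, str_app n F h4 U hU _ (h2 U hU) fun i hi => h3 i hi U hU, h5 U hU⟩

omit [∀ a : Name (PP J), Clopen fun U => T U (a.val U)] in
theorem str_follows (hlen : Function.Injective len) (hmon : ∀ n Φ, (∀ i, Mn (Φ i)) → Mn (G n Φ))
    (hagree : ∀ n p Φ Φ', (∀ i < len n, Ag p (Φ i) (Φ' i)) → Ag p (G n Φ) (G n Φ'))
    (hT : ∀ n U, T U ((natName (len n)).val U)) {f : Name (PP J)} {F : ℕ → Name (PP J)}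
    (hf : Forces p fun U => IsPos Mod.mem (f.val U) (omegaName.val U) ((tyName LL.{u}).val U)
      ((tyName LL.{u}).val U))
    (hs : Forces p fun U => Follows Mod.mem (f.val U) ((strN len G).val U) (omegaName.val U)
      (T U))
    (hF : ∀ i, Forces p fun U => App Mod.mem (f.val U) ((natName i).val U) ((F i).val U)) (n : ℕ) :
    ∀ q ≤ p, ∀ α l, G n (fun i => vl (F i)) q α l → vl (F (len n)) q α l := by
  have h4 : ∀ i, Forces p fun U => Mv U ((F i).val U) := fun i =>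
    (hf.and (hF i)).imp fun U h => ((isZFC U).app_val h.1 h.2).2
  have h5 : Forces p fun U => (nn (G n fun i => vl (nn (vl (F i))))).val U =
      (F (len n)).val U := by
    intro U hU
    obtain ⟨h, hh⟩ : ∃ h, IsRestr Mod.mem h (f.val U) ((natName (len n)).val U) :=
      Mod.sep (fun U z => ∃ x y, IsPair Mod.mem z x y ∧ Mod.mem x ((natName (len n)).val U)) U _
    refine str_func hlen hmon hagree p U hU h _ _ ?_
      (hs U hU _ h _ (natName_mem_omega _ U) (hT n U) hh (hF _ U hU))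
    refine str_app n F (fun i _ => h4 i) U hU h ((isZFC U).isFunOn_restr hh (hf U hU) ?_)
      fun i hi => ((isZFC U).app_restr hh).2 ⟨hF i U hU, natName_mem hi U⟩
    intro x hx
    obtain ⟨i, -, rfl⟩ := (mem_natName U x).1 hx
    exact natName_mem_omega i U
  intro q hq α l h
  refine (vl_agree h5 q hq α l).1 (vl_nn ?_)
  exact (hagree n p _ _ (fun i _ => vl_agree (eq_nn_vl (h4 i))) q hq α l).2 h

end strat

/-- the name of a ground model sequence of moves -/
noncomputable def sq (b : ℕ → LL.{u}) : Name (PP J) :=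
  funName (fun n : ULift.{u} ℕ => natName n.down) fun n => elt (b n.down)

theorem app_sq (b : ℕ → LL.{u}) (n : ℕ) (U : Gen (PP J)) :
    App Mod.mem ((sq b).val U) ((natName n).val U) ((elt (b n)).val U) :=
  app_funName (fun n : ULift.{u} ℕ => natName n.down) (fun n => elt (b n.down)) ⟨n⟩ U

theorem isFunOn_sq (b : ℕ → LL.{u}) (U : Gen (PP J)) :
    IsFunOn Mod.mem ((sq b).val U) (omegaName.val U) fun _ => True := by
  refine of_forces_all (Φ := fun U : Gen (PP J) => IsFunOn Mod.mem ((sq b).val U)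
    (omegaName.val U) fun _ => True) (fun p => ⟨p, le_rfl, ?_⟩) U
  refine forces_isFunOn_graph (V := fun _ _ => True) (fun i q _ _ => ⟨q, le_rfl,
    Forces.of_forall (fun U => ⟨natName_mem_omega _ U, trivial⟩) q⟩)
    (fun j q _ _ => ⟨q, le_rfl, j, le_top, Forces.of_forall (fun _ => rfl) q⟩)
    fun i j q _ _ _ h => ⟨q, le_rfl, Forces.of_forall (fun _ => ?_) q⟩
  rw [h.natName_inj]

theorem det_self (hJ : 𝔠 < #J) (U : Gen (PP J)) :
    Det Mod.mem (omegaName.val U) (evName.val U) ((tyName LL.{u}).val U)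
      ((tyName LL.{u}).val U) := by
  refine of_forces_all (Φ := fun U : Gen (PP J) => Det Mod.mem (omegaName.val U) (evName.val U)
    ((tyName LL.{u}).val U) ((tyName LL.{u}).val U)) (fun p => ⟨p, le_rfl, ?_⟩) U
  refine forces_forall fun A => forces_imp fun q _ hA => ?_
  obtain ⟨c, hc1, hc2⟩ := exists_irr hJ
    (fun b r => Forces r fun U => Mod.mem ((sq b).val U) (A.val U))
    (fun b r => Forces r fun U => ¬ Mod.mem ((sq b).val U) (A.val U))
    (fun _ _ _ h h' => h'.mono h) (fun _ _ _ h h' => h'.mono h)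
    (fun _ _ h h' => Forces.not_false ((h.and h').imp fun _ h => h.2 h.1))
    (fun b r => by
      by_cases h : Forces r fun U => Mod.mem ((sq b).val U) (A.val U)
      · exact ⟨r, le_rfl, Or.inl h⟩
      · obtain ⟨t, ht, h⟩ := exists_forces_not h
        exact ⟨t, ht, Or.inr h⟩)
  have hl1 : Function.Injective fun n : ℕ => 2 * n := fun a b h => by simpa using h
  have hl2 : Function.Injective fun n : ℕ => 2 * n + 1 := fun a b h => by simpa using h
  have hm1 : ∀ n (Φ : ℕ → Vl J), (∀ i, Mn (Φ i)) → Mn (oneF c n Φ) := fun n Φ _ => oneF_mon c n Φ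
  have ha1 : ∀ n p (Φ Φ' : ℕ → Vl J),
      (∀ i < 2 * n, Ag p (Φ i) (Φ' i)) → Ag p (oneF c n Φ) (oneF c n Φ') :=
    fun n p Φ Φ' => oneF_agree c
  by_cases hc : Forces q fun U => ∀ f, IsPos Mod.mem f (omegaName.val U) ((tyName LL.{u}).val U)
      ((tyName LL.{u}).val U) → Follows Mod.mem f ((strN (fun n => 2 * n) (oneF c)).val U)
      (omegaName.val U) (fun n => Mod.mem n (evName.val U)) →
      OneWins Mod.mem f (A.val U) (omegaName.val U) ((tyName LL.{u}).val U)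
  · refine ⟨q, le_rfl, ((str_isStrat (T := fun U n => Mod.mem n (evName.val U)) hl1 hm1 ha1
      (fun n q _ Φ => oneF_good c) fun m U h => (natName_mem_ev m U).1 h).and hc).imp
      fun U h => Or.inl ⟨_, h⟩⟩
  obtain ⟨r0, hr0, hc⟩ := exists_forces_not hc
  obtain ⟨f, hf⟩ := Forces.exists_name (Φ := fun U f => IsPos Mod.mem f (omegaName.val U)
      ((tyName LL.{u}).val U) ((tyName LL.{u}).val U) ∧
      Follows Mod.mem f ((strN (fun n => 2 * n) (oneF c)).val U)
      (omegaName.val U) (fun n => Mod.mem n (evName.val U)) ∧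
      ¬ OneWins Mod.mem f (A.val U) (omegaName.val U) ((tyName LL.{u}).val U))
    (hc.imp fun U h => by simpa only [not_forall, exists_prop] using h)
  choose F hF using fun i => exists_app_name f (natName i)
  obtain ⟨r, hr, hψ⟩ := exists_le_forall Cond.exists_lower_of_antitone r0
    (fun n t => ∃ ψ, Lst t (vl (F (2 * n + 1))) ψ) (fun n t t' h ⟨ψ, hψ⟩ => ⟨ψ, hψ.le h⟩)
    fun n t _ => exists_lst t _
  choose ψ hψ using hψ
  replace hf := hf.mono hr
  obtain ⟨α, hα⟩ : ∃ α, ∀ z ∈ r.s, z.1.1 ≠ c α := by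
    by_contra hcon
    push Not at hcon
    have h1 : (Set.univ : Set LL.{u}) ⊆
        c ⁻¹' ((fun z : (J × LL.{u} × ℕ) × Bool => z.1.1) '' r.s) := fun α _ => hcon α
    exact Set.not_countable_univ (((r.cnt.image _).preimage_of_injOn hc1.injOn).mono h1)
  have hf1 := hf.imp fun _ h => h.1
  have hF1 : ∀ i, Forces r fun U => App Mod.mem (f.val U) ((natName i).val U) ((F i).val U) :=
    fun i => hf1.imp fun U h => hF i U (h.2.1 _ (natName_mem_omega i U))
  have hF2 : ∀ i, Gd r (vl (F i)) := fun i =>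
    vl_good ((hf1.and (hF1 i)).imp fun U h => ((isZFC U).app_val h.1 h.2).2)
  have hF3 := str_follows (T := fun U n => Mod.mem n (evName.val U)) hl1 hm1 ha1
    (fun n U => (natName_mem_ev _ U).2 ⟨n, rfl⟩) hf1 (hf.imp fun _ h => h.2.1) hF1
  have hm2 : ∀ n (Ψ : ℕ → Vl J), (∀ i, Mn (Ψ i)) → Mn (twoF (c α) α ψ n Ψ) :=
    fun n Ψ h => twoF_mon fun i _ => h i
  have ha2 : ∀ n p (Ψ Ψ' : ℕ → Vl J), (∀ i < 2 * n + 1, Ag p (Ψ i) (Ψ' i)) →
      Ag p (twoF (c α) α ψ n Ψ) (twoF (c α) α ψ n Ψ') := fun n p Φ Φ' => twoF_agree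
  refine ⟨r, hr.trans hr0, (Forces.and (str_isStrat (T := fun U n => ¬ Mod.mem n (evName.val U))
    hl2 hm2 ha2 (fun n q hq Ψ => twoF_good hα hF2 (fun i => (hψ i).1) hq) fun m U h => ?_) ?_).imp
      fun U h => Or.inr ⟨_, h⟩⟩
  · obtain ⟨n, rfl | rfl⟩ := Nat.even_or_odd' m
    · exact absurd ((natName_mem_ev _ U).2 ⟨n, rfl⟩) h
    · exact ⟨n, rfl⟩
  refine forces_forall fun g => forces_imp fun s hs hg1 => ⟨s, le_rfl,
    forces_imp fun s' hs' hg2 => ⟨s', le_rfl, forces_not_iff.2 fun s2 hs2 hg3 => ?_⟩⟩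
  obtain ⟨b, hb⟩ := Forces.exists_name hg3
  obtain ⟨s3, hs3, β, hβ⟩ := (hb.imp fun _ h => h.1).exists_fam
  obtain ⟨a', ha'⟩ := Forces.exists_name (hb.imp fun _ h => h.2)
  have e1 : s3 ≤ s := hs3.trans (hs2.trans hs')
  have e2 : s3 ≤ r := e1.trans hs
  replace hg1 := hg1.mono e1
  choose H hH using fun i => exists_app_name g (natName i)
  have hH1 : ∀ i, Forces s3 fun U => App Mod.mem (g.val U) ((natName i).val U) ((H i).val U) :=
    fun i => hg1.imp fun U h => hH i U (h.2.1 _ (natName_mem_omega i U))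
  have hH2 : ∀ i, Forces s3 fun U => Mv U ((H i).val U) := fun i =>
    (hg1.and (hH1 i)).imp fun U h => ((isZFC U).app_val h.1 h.2).2
  have hH3 := str_follows (T := fun U n => ¬ Mod.mem n (evName.val U)) hl2 hm2 ha2
    (fun n U h => by
      obtain ⟨m, hm⟩ := (natName_mem_ev _ U).1 h
      omega) hg1 (hg2.mono (hs3.trans hs2)) hH1
  obtain ⟨s4, hs4, w, hw, hoff, a, ha⟩ := core hα hF2 hψ e2 (fun i => vl_good (hH2 i)) hF3 hH3 β
  refine hc2 α a s4 w ?_ ?_ hoff
  · have k0 : Forces s4 fun U => ∀ n, Mod.mem n (omegaName.val U) →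
        ∀ y, App Mod.mem (a'.val U) n y → App Mod.mem ((sq a).val U) n y := by
      refine forces_forall_mem_omega fun n s5 hs5 => ⟨s5, le_rfl, Forces.mono ?_ hs5⟩
      intro U hU y hy
      obtain ⟨y', k2, k3⟩ := (ha'.mono (hs4.trans hs3) U hU).2 _ _ (natName_mem_omega n U)
        ((hH1 n).mono hs4 U hU)
      rw [hβ.mono hs4 U hU] at k2
      rw [((hH2 n).mono hs4 U hU).2.2 _ _ _ k2 ((ha n).2 U hU)] at k3
      rw [(hA.mono (hs4.trans (e2.trans (hr.trans hr0))) U hU _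
        (ha'.mono (hs4.trans hs3) U hU).1).2.2 _ _ _ hy k3]
      exact app_sq a n U
    intro U hU
    have k1 := (ha'.mono (hs4.trans hs3) U hU).1
    rwa [(isZFC U).fun_ext (hA.mono (hs4.trans (e2.trans (hr.trans hr0))) U hU _ k1)
      (isFunOn_sq a U) (k0 U hU)] at k1
  · have hwin : Forces w fun U => ∀ n, Mod.mem n (omegaName.val U) →
        ∀ g0, App Mod.mem (f.val U) n g0 →
          ∃ y, App Mod.mem g0 ((elt α).val U) y ∧ App Mod.mem ((sq a).val U) n y := by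
      refine forces_forall_mem_omega fun n s5 hs5 => ⟨s5, le_rfl, Forces.mono ?_ hs5⟩
      intro U hU g0 hg0
      have k1 := (hf1.mono hw U hU).2.2 _ _ _ hg0 ((hF1 n).mono hw U hU)
      exact ⟨_, k1 ▸ (ha n).1 U hU, app_sq a n U⟩
    exact fun U hU k => (hf.mono hw U hU).2.2
      ⟨_, elt_mem_tyName α U, _, k, fun n g0 hn => hwin U hU n hn g0⟩

end Pool.Agent.P.MP_0c777d_lc.Free
end
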